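import Pool.Agent.Lib.MP_f80667_ag.Cv.JcC

/-!
Abelian varieties.

* `Gr V`: a group law on the points of `V`, `Gr.sum`: the sum of a cycle, `DvS G K Ω m`: the Albanese kernel (the classes of
  the cycles of degree `0` and sum `0`) over `K` is `m`-divisible.
* `JJ C`: the product of the Jacobians of the curves `C i`, `grP C`: its group law.
* `Mk k V₁ V₂`: morphisms over `k` of varieties over subfields `F₁`, `F₂` of `k`, `Mk.Hom`: homomorphisms.
* `Fac k C G m`: homomorphisms `q : JJ C → V`, `s : V → JJ C` over `k` with `q s = m`.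
* `Tor G m N`: over algebraically closed fields the multiplication by `m` is surjective with `N` points in the kernel.
-/

open ZC BE Polynomial IntermediateField

namespace AV

open CV

section grp

variable {F : Type} [Field F]

/-- A group law. -/
structure Gr (V : Vr F) where
  /-- the group structure -/
  grp : ∀ (L : Type) [Field L] [Algebra F L], AddCommGroup (V.pt L)
  map_add : ∀ (L M : Type) [Field L] [Field M] [Algebra F L] [Algebra F M] (σ : L →ₐ[F] M)
    (x y : V.pt L), V.map σ ((grp L).add x y) = (grp M).add (V.map σ x) (V.map σ y)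

/-- The sum of a cycle. -/
noncomputable def Gr.sum {V : Vr F} (G : Gr V) (Ω : Type) [Field Ω] [Algebra F Ω] :
    letI := G.grp Ω; (V.pt Ω →₀ ℤ) →+ V.pt Ω :=
  letI := G.grp Ω
  Finsupp.liftAddHom fun x => (zmultiplesHom (V.pt Ω)) x

/-- The Albanese kernel over `K` is `m`-divisible. -/
def DvS {V : Vr F} (G : Gr V) (K : Type) [Field K] [Algebra F K] (Ω : Type) [Field Ω]
    [Algebra K Ω] [Algebra F Ω] [IsScalarTower F K Ω] (m : ℕ) : Prop :=
  ∀ z ∈ V.D0 K Ω, G.sum Ω z = (G.grp Ω).zero → ∃ z' ∈ V.D0 K Ω, G.sum Ω z' = (G.grp Ω).zero ∧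
    z - m • z' ∈ V.ratEq K Ω

/-- The product of the Jacobians. -/
noncomputable abbrev JJ {ι : Type} (C : ι → Crv F) : Vr F := Vpi fun i => (C i).J

/-- The group law of the product of the Jacobians. -/
noncomputable def grP {ι : Type} (C : ι → Crv F) : Gr (JJ C) where
  grp L _ _ := inferInstanceAs (AddCommGroup (∀ i, (C i).J.pt L))
  map_add _ _ _ _ _ _ σ x y := funext fun i => map_add (clX (bA (C i) σ)) (x i) (y i)

/-- Over algebraically closed fields the multiplication by `m` is surjective and its kernel has `N` elements. -/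
structure Tor {V : Vr F} (G : Gr V) (m N : ℕ) : Prop where
  ne : N ≠ 0
  div : ∀ (Ω : Type) [Field Ω] [Algebra F Ω] [IsAlgClosed Ω],
    letI := G.grp Ω; ∀ x : V.pt Ω, ∃ y, m • y = x
  tor : ∀ (Ω : Type) [Field Ω] [Algebra F Ω] [IsAlgClosed Ω],
    letI := G.grp Ω; Nat.card {x : V.pt Ω // m • x = 0} = N

end grp

/-- A morphism over `k` of varieties over subfields of `k`. -/
structure Mk (k : Type) [Field k] {F₁ F₂ : Type} [Field F₁] [Field F₂] [Algebra F₁ k]
    [Algebra F₂ k] (V₁ : Vr F₁) (V₂ : Vr F₂) where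
  /-- the map of points -/
  f : ∀ (L : Type) [Field L] [Algebra k L] [Algebra F₁ L] [Algebra F₂ L] [IsScalarTower F₁ k L]
    [IsScalarTower F₂ k L], V₁.pt L → V₂.pt L
  nat : ∀ (L M : Type) [Field L] [Algebra k L] [Algebra F₁ L] [Algebra F₂ L]
    [IsScalarTower F₁ k L] [IsScalarTower F₂ k L] [Field M] [Algebra k M] [Algebra F₁ M]
    [Algebra F₂ M] [IsScalarTower F₁ k M] [IsScalarTower F₂ k M] (σ : L →ₐ[k] M) (x : V₁.pt L),
    V₂.map (σ.restrictScalars F₂) (f L x) = f M (V₁.map (σ.restrictScalars F₁) x)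
  red : ∀ (K L Ω : Type) [Field K] [Algebra k K] [Field L] [Algebra K L] [Algebra k L]
    [IsScalarTower k K L] [Algebra F₁ L] [Algebra F₂ L] [IsScalarTower F₁ k L]
    [IsScalarTower F₂ k L] [Field Ω] [Algebra K Ω] [Algebra k Ω] [IsScalarTower k K Ω]
    [Algebra F₁ Ω] [Algebra F₂ Ω] [IsScalarTower F₁ k Ω] [IsScalarTower F₂ k Ω]
    (w : Place K L Ω) (x : V₁.pt L) (y : V₁.pt Ω), V₁.red w x y → V₂.red w (f L x) (f Ω y)

/-- The morphism is a homomorphism. -/
def Mk.Hom {k : Type} [Field k] {F₁ F₂ : Type} [Field F₁] [Field F₂] [Algebra F₁ k]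
    [Algebra F₂ k] {V₁ : Vr F₁} {V₂ : Vr F₂} (φ : Mk k V₁ V₂) (G₁ : Gr V₁) (G₂ : Gr V₂) : Prop :=
  ∀ (L : Type) [Field L] [Algebra k L] [Algebra F₁ L] [Algebra F₂ L] [IsScalarTower F₁ k L]
    [IsScalarTower F₂ k L] (x y : V₁.pt L),
    φ.f L ((G₁.grp L).add x y) = (G₂.grp L).add (φ.f L x) (φ.f L y)

/-- Over `k` the variety `V` is up to multiplication by `m` a factor of the product of the Jacobians. -/
structure Fac {F : Type} [Field F] (k : Type) [Field k] [Algebra F k] {ι : Type} (C : ι → Crv k)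
    {V : Vr F} (G : Gr V) (m : ℕ) where
  /-- the homomorphism from the product of the Jacobians -/
  q : Mk k (JJ C) V
  /-- the homomorphism to the product of the Jacobians -/
  s : Mk k V (JJ C)
  hq : q.Hom (grP C) G
  hs : s.Hom G (grP C)
  qs : ∀ (L : Type) [Field L] [Algebra k L] [Algebra F L] [IsScalarTower F k L] (x : V.pt L),
    q.f L (s.f L x) = letI := G.grp L; m • x

end AV
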