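import Pool.Agent.Lib.MP_f80667_ag.Av.Pts

/-!
The conditions at almost all places and almost all prime numbers.

* `Gla G l`: at every finite place `v` the condition `Gda`, or `v` is not above `l` and the Albanese kernel over `F_v` is
  `l`-divisible.
* `Pga G K`: over a finite extension `M` of `K` the variety is, up to a multiplication, a factor of the product of the
  Jacobians of curves with good reduction.
* `gda_good`: the good places; `gla_fin`: almost all prime numbers.
-/

open ZC BE PE Polynomial IntermediateField IsDedekindDomain NumberField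

namespace AV

open CV

section loc

variable {F : Type} [Field F] {V : Vr F}

/-- From the conditions for curves over `F`. -/
theorem gda_of {G : Gr V} {n : ℕ} {C : Fin n → Crv F} {m N l : ℕ} (f : Fac F C G m)
    (hT : Tor G m N) (hl : l.Coprime N) (hg : ∀ i, (C i).gen < l) {K : Type} [Field K]
    [Algebra F K] (h : Grd C l K) : Gda G l K := by
  obtain ⟨M, L, hM, hc, hr, hL⟩ := h
  exact ⟨M, L, F, inferInstance, Algebra.id F, inferInstance, inferInstance, n, C, m, N, hM, hc,
    hr, hL, ⟨f⟩, hT, hl, hg⟩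

/-- Potentially a factor of a product of Jacobians of curves with good reduction. -/
def Pga (G : Gr V) (K : Type) [Field K] [Algebra F K] : Prop :=
  ∃ (M : IntermediateField K (AlgebraicClosure K)) (L : Ld M (AlgebraicClosure K))
    (k : Type) (_ : Field k) (_ : Algebra F k) (_ : Algebra k M) (_ : IsScalarTower F k M)
    (n : ℕ) (C : Fin n → Crv k) (m N : ℕ), FiniteDimensional K M ∧
    (∀ i, Nonempty (Mod (C i) (Ok L) M)) ∧ Nonempty (Fac k C G m) ∧ Tor G m N

/-- Almost all prime numbers. -/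
theorem pga_fin {G : Gr V} {K : Type} [Field K] [CharZero K] [Algebra F K] (h : Pga G K) :
    {l : ℕ | l.Prime ∧ ¬ Gda G l K}.Finite := by
  obtain ⟨M, L, k, i1, i2, i3, i4, n, C, m, N, hM, hr, hf, hT⟩ := h
  refine (((Set.finite_Iic (Module.finrank K M)).union (Set.finite_singleton L.p)).union
    ((Set.finite_Iic N).union
      (Set.finite_Iic (Finset.univ.sup fun i => (C i).gen)))).subset ?_
  rintro l ⟨hl, hg⟩
  by_contra hc
  simp only [Set.mem_union, Set.mem_Iic, Set.mem_singleton_iff, not_or, not_le] at hc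
  obtain ⟨⟨h1, h2⟩, h3, h4⟩ := hc
  have hpos : 0 < Module.finrank K M := Module.finrank_pos
  exact hg ⟨M, L, k, i1, i2, i3, i4, n, C, m, N, hM, ((Nat.Prime.coprime_iff_not_dvd hl).2 fun h =>
    absurd (Nat.le_of_dvd hpos h) (not_le.2 h1)).symm, hr, Ok_unit L hl h2, hf, hT,
    (Nat.Prime.coprime_iff_not_dvd hl).2 fun h =>
      absurd (Nat.le_of_dvd (Nat.pos_of_ne_zero hT.ne) h) (not_le.2 h3),
    fun i => lt_of_le_of_lt (Finset.le_sup (f := fun i => (C i).gen) (Finset.mem_univ i)) h4⟩

end loc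

section nf

variable {F : Type} [Field F] [NumberField F] {V : Vr F} (G : Gr V)

/-- The conditions at the prime number `l`. -/
def Gla (l : ℕ) : Prop :=
  ∀ v : HeightOneSpectrum (𝓞 F), Gda G l (FK F v) ∨
    v.valuation F (l : F) = 1 ∧ DvS G (FK F v) (AlgebraicClosure (FK F v)) l

variable {G}

theorem gla_dv (hV : Fct V) {l : ℕ} (hJ : Lj l) (h : Gla G l)
    (v : HeightOneSpectrum (𝓞 F)) : DvS G (FK F v) (AlgebraicClosure (FK F v)) l := by
  have h0 : CharZero (FK F v) :=
    charZero_of_injective_algebraMap (algebraMap F (FK F v)).injective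
  rcases h v with h1 | h1
  · exact gda_dv hV hJ h1
  · exact h1.2

/-- **The good places.** -/
theorem gda_good {n : ℕ} {C : Fin n → Crv F} {m N : ℕ} (f : Fac F C G m) (hT : Tor G m N) :
    {v : HeightOneSpectrum (𝓞 F) | ¬ ∀ l : ℕ, l.Prime → l.Coprime N → (∀ i, (C i).gen < l) →
      Gda G l (FK F v)}.Finite := by
  refine (glb_good C).subset fun v hv h => hv fun l hl hc hg => ?_
  exact gda_of f hT hc hg (h l hl)

/-- **Almost all finite places.** -/
theorem dvS_fin (hV : Fct V) (hJ : ∀ l : ℕ, l.Prime → Lj l) {n : ℕ} {C : Fin n → Crv F}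
    {m N : ℕ} (f : Fac F C G m) (hT : Tor G m N) :
    {v : HeightOneSpectrum (𝓞 F) | ¬ ∀ a : ℕ, a ≠ 0 → (∀ l : ℕ, l.Prime → l ∣ a →
      l.Coprime N ∧ ∀ i, (C i).gen < l) →
        DvS G (FK F v) (AlgebraicClosure (FK F v)) a}.Finite := by
  refine (gda_good f hT).subset fun v hv h => hv fun a ha hl => ?_
  have h0 : CharZero (FK F v) :=
    charZero_of_injective_algebraMap (algebraMap F (FK F v)).injective
  refine dvS_of (Λ := {l | l.Coprime N ∧ ∀ i, (C i).gen < l}) (fun l h1 hp => ?_) a ha hl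
  exact gda_dv hV (hJ l hp) (h l hp h1.1 h1.2)

/-- **The conditions at almost all prime numbers.** -/
theorem gla_fin {n : ℕ} {C : Fin n → Crv F} {m N : ℕ} (f : Fac F C G m) (hT : Tor G m N) :
    ∃ S : Set (HeightOneSpectrum (𝓞 F)), S.Finite ∧
      {l : ℕ | l.Prime ∧ ¬ ((∀ v ∈ S, Pga G (FK F v) ∨
        DvS G (FK F v) (AlgebraicClosure (FK F v)) l) → Gla G l)}.Finite := by
  refine ⟨_, gda_good f hT, ?_⟩
  have h1 := (gda_good f hT).biUnion (t := fun v => {l : ℕ | l.Prime ∧
    ((Pga G (FK F v) ∧ ¬ Gda G l (FK F v)) ∨ ¬ v.valuation F (l : F) = 1)}) fun v _ => ?_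
  · refine (h1.union ((Set.finite_Iic N).union
      (Set.finite_Iic (Finset.univ.sup fun i => (C i).gen)))).subset ?_
    rintro l ⟨hl, h2⟩
    by_contra h3
    simp only [Set.mem_union, Set.mem_Iic, not_or, not_le] at h3
    obtain ⟨h3, h8, h9⟩ := h3
    refine h2 fun h4 v => ?_
    by_cases hv : v ∈ {v : HeightOneSpectrum (𝓞 F) | ¬ ∀ l : ℕ, l.Prime → l.Coprime N →
        (∀ i, (C i).gen < l) → Gda G l (FK F v)}
    · have h5 : ¬ ((Pga G (FK F v) ∧ ¬ Gda G l (FK F v)) ∨ ¬ v.valuation F (l : F) = 1) :=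
        fun h6 => h3 (Set.mem_biUnion hv ⟨hl, h6⟩)
      rw [not_or, not_not] at h5
      by_cases h7 : Gda G l (FK F v)
      · exact Or.inl h7
      · rcases h4 v hv with h6 | h6
        · exact absurd ⟨h6, h7⟩ h5.1
        · exact Or.inr ⟨h5.2, h6⟩
    · exact Or.inl (not_not.1 hv l hl ((Nat.Prime.coprime_iff_not_dvd hl).2 fun h =>
        absurd (Nat.le_of_dvd (Nat.pos_of_ne_zero hT.ne) h) (not_le.2 h8)) fun i =>
          lt_of_le_of_lt (Finset.le_sup (f := fun i => (C i).gen) (Finset.mem_univ i)) h9)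
  · have hch : CharZero (FK F v) :=
      charZero_of_injective_algebraMap (algebraMap F (FK F v)).injective
    have h2 : {l : ℕ | l.Prime ∧ Pga G (FK F v) ∧ ¬ Gda G l (FK F v)}.Finite := by
      by_cases h : Pga G (FK F v)
      · exact (pga_fin h).subset fun l hl => ⟨hl.1, hl.2.2⟩
      · exact Set.finite_empty.subset fun l hl => absurd hl.2.1 h
    have h3 : {l : ℕ | l.Prime ∧ ¬ v.valuation F (l : F) = 1}.Finite := by
      obtain ⟨L, c, hc0, hc1, hL, -⟩ := exists_ldE v
      refine (Set.finite_singleton L.p).subset ?_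
      rintro l ⟨hl, h4⟩
      by_contra h5
      have h6 : v.valuation F (l : F) ≠ 0 :=
        (Valuation.ne_zero_iff _).2 (Nat.cast_ne_zero.2 hl.ne_zero)
      have h7 := hL (l : F) (-WithZero.log (v.valuation F (l : F)))
        (by rw [neg_neg, WithZero.exp_log h6])
      have h8 : L.nm (l : AlgebraicClosure (FK F v)) = 1 := L.nat_unit fun h9 =>
        h5 ((Nat.prime_dvd_prime_iff_eq L.pp hl).1 h9).symm
      rw [map_natCast, h8, ← zpow_zero c] at h7
      have h9 := zpow_right_injective₀ hc0 hc1.ne h7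
      refine h4 ?_
      rw [← WithZero.exp_log h6, ← WithZero.exp_zero]
      exact congrArg _ (by omega)
    refine (h2.union h3).subset ?_
    rintro l ⟨hl, h4 | h4⟩
    · exact Or.inl ⟨hl, h4⟩
    · exact Or.inr ⟨hl, h4⟩

end nf

end AV
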