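import Pool.Agent.Lib.MP_f80667_ag.Be.HatA

/-! Elements of the completion from Cauchy sequences. -/

open ZC BE

namespace AV

theorem mk_eq {G : Type} [AddCommGroup G] {m : ℕ+} {a b : G} :
    (QuotientAddGroup.mk a : G ⧸ mlt G m) = QuotientAddGroup.mk b ↔ ∃ u, b = a + (m : ℕ) • u := by
  rw [QuotientAddGroup.eq]
  constructor
  · rintro ⟨u, hu⟩
    have h : (m : ℕ) • u = -a + b := hu
    exact ⟨u, by rw [h, add_neg_cancel_left]⟩
  · rintro ⟨u, rfl⟩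
    refine ⟨u, ?_⟩
    change (m : ℕ) • u = -a + (a + (m : ℕ) • u)
    rw [neg_add_cancel_left]

/-- A sequence `y` with `y (k + 1) - y k` divisible by `(k + 1)!` converges in the completion. -/
theorem exists_lhat {G : Type} [AddCommGroup G] (y w : ℕ → G)
    (h : ∀ k, y (k + 1) = y k + (k + 1).factorial • w k) :
    ∃ Y : LHat G, ∀ (m : ℕ+) (k : ℕ), (m : ℕ) ≤ k → Y.Rep m (y k) := by
  have h1 : ∀ (m : ℕ+) (j : ℕ), ∃ u, y (m + j) = y m + (m : ℕ) • u := by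
    intro m j
    induction j with
    | zero => exact ⟨0, by rw [smul_zero, add_zero, add_zero]⟩
    | succ j ih =>
      obtain ⟨u, hu⟩ := ih
      have hd : (m : ℕ) ∣ ((m : ℕ) + j + 1).factorial := Nat.dvd_factorial m.pos (by omega)
      obtain ⟨c, hc⟩ := hd
      refine ⟨u + c • w (m + j), ?_⟩
      rw [← add_assoc, h, hu, hc, mul_smul, smul_add, add_assoc]
  have h2 : ∀ (m : ℕ+) (k : ℕ), (m : ℕ) ≤ k → ∃ u, y k = y m + (m : ℕ) • u := by
    intro m k hk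
    obtain ⟨j, rfl⟩ := Nat.exists_eq_add_of_le hk
    exact h1 m j
  refine ⟨⟨fun m => QuotientAddGroup.mk (y m), fun m m' hm a ha => ?_⟩, fun m k hk => ?_⟩
  · obtain ⟨u, hu⟩ := mk_eq.1 ha
    obtain ⟨v, hv⟩ := h2 m m' (PNat.le_of_dvd hm)
    obtain ⟨c, hc⟩ := hm
    refine mk_eq.2 ⟨v + (c : ℕ) • u, ?_⟩
    rw [hu, hv, hc, PNat.mul_coe, mul_smul, smul_add, add_assoc]
  · obtain ⟨u, hu⟩ := h2 m k hk
    exact mk_eq.2 ⟨u, hu⟩

end AV
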