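import Pool.Agent.Lib.MP_f80667_ag.Av.Loc
import Pool.Agent.Lib.MP_f80667_ag.Av.Hat

/-!
Abelian varieties over number fields.

* `AlbSA G c`: the sums of the family `c` are `0` at all places.
* `Smq G m K x y`: `x = y + m a`, `a` a point over `K`.
* `SumIm G Λ z`: the sums of `z` are, at `Λ`, those of the image of an element of the completion of `F^1(V)`.
* `PtIm G Λ z`: the sums of `z` are, at `Λ`, the images of an element of the completion of the group of points `V(F)`.
* `imDeS_sum`, `imDeS_pt`: the completed statement.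
-/

open ZC BE PE Polynomial IntermediateField IsDedekindDomain NumberField

namespace AV

open CV

section loc

variable {F : Type} [Field F] {V : Vr F} (G : Gr V)

/-- `x = y + m a`, `a` a point over `K`. -/
def Smq (m : ℕ) (K : Type) [Field K] [Algebra F K] (x y : V.pt (AlgebraicClosure K)) : Prop :=
  letI := G.grp (AlgebraicClosure K)
  ∃ a : V.pt (AlgebraicClosure K), V.Rat K a ∧ x = y + m • a

variable {G} {K : Type} [Field K] [Algebra F K]

/-- Divisibility in terms of classes. -/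
theorem dvS_cl {m : ℕ} (h : DvS G K (AlgebraicClosure K) m) (z : Zc V K)
    (hz : G.sum _ z.cy = (G.grp (AlgebraicClosure K)).zero) :
    ∃ z' : Zc V K, G.sum _ z'.cy = (G.grp (AlgebraicClosure K)).zero ∧ z.cl = m • z'.cl := by
  obtain ⟨y, hy, hs, hr⟩ := h z.cy z.2 hz
  let w : Dz V K := ⟨y, hy⟩
  refine ⟨w, hs, ?_⟩
  have h1 : m • Zc.cl (V := V) (K := K) w = Gp.clsH V K (m • w) :=
    (map_nsmul (Gp.clsH V K) m w).symm
  rw [h1]
  exact Gp.cls_eq.2 hr

variable (G) in
/-- The point `0` is a point over `K`. -/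
theorem rat_zero : V.Rat K (G.grp (AlgebraicClosure K)).zero := fun σ =>
  hom_zero (G := G) (G' := G) fun x y =>
    G.map_add _ _ (σ.restrictScalars F : AlgebraicClosure K →ₐ[F] AlgebraicClosure K) x y

variable (G) in
/-- The cycle `[x] - [0]` of a point over `K`. -/
noncomputable def rdp (x : V.pt (AlgebraicClosure K)) (hx : V.Rat K x) : Dz V K :=
  ⟨Finsupp.single x 1 - Finsupp.single (G.grp (AlgebraicClosure K)).zero 1, by
    refine ⟨fun σ => ?_, ?_⟩
    · have h1 := (Finsupp.mapDomain.addMonoidHom (M := ℤ) (V.act σ)).map_sub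
        (Finsupp.single x 1) (Finsupp.single (G.grp (AlgebraicClosure K)).zero 1)
      refine h1.trans ?_
      rw [Finsupp.mapDomain.addMonoidHom_apply, Finsupp.mapDomain.addMonoidHom_apply,
        Finsupp.mapDomain_single, Finsupp.mapDomain_single, hx σ, rat_zero G σ]
    · change V.deg (AlgebraicClosure K) _ = 0
      rw [map_sub, Vr.deg, Finsupp.liftAddHom_apply_single, Finsupp.liftAddHom_apply_single]
      exact sub_self _⟩

variable (G) in
theorem sum_rdp (x : V.pt (AlgebraicClosure K)) (hx : V.Rat K x) :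
    G.sum _ (rdp G x hx).1 = x := by
  let _ : AddCommGroup (V.pt (AlgebraicClosure K)) := G.grp _
  have h1 : G.sum (AlgebraicClosure K) (Finsupp.single x 1) = x := by
    rw [sum_single]
    exact one_zsmul x
  have h2 : G.sum (AlgebraicClosure K)
      (Finsupp.single (G.grp (AlgebraicClosure K)).zero 1) = 0 := by
    rw [sum_single]
    exact one_zsmul (0 : V.pt (AlgebraicClosure K))
  change G.sum _ (Finsupp.single x 1 - Finsupp.single (G.grp (AlgebraicClosure K)).zero 1) = x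
  rw [map_sub, h1, h2, sub_zero]

/-- Cycles with the same sum modulo `m` have the same class modulo `m`. -/
theorem cl_of_smq {m : ℕ} (h : DvS G K (AlgebraicClosure K) m) (z w : Zc V K)
    (hz : Smq G m K (G.sum _ z.cy) (G.sum _ w.cy)) : ∃ u : Gp V K, z.cl = w.cl + m • u := by
  let _ : AddCommGroup (V.pt (AlgebraicClosure K)) := G.grp _
  obtain ⟨a, ha, e⟩ := hz
  let z0 : Dz V K := z
  let w0 : Dz V K := w
  obtain ⟨z', -, h'⟩ := dvS_cl h (z0 - w0 - m • rdp G a ha : Dz V K) (by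
    have e1 : G.sum _ (z0 - w0 - m • rdp G a ha : Dz V K).1 =
        G.sum _ z0.1 - G.sum _ w0.1 - m • G.sum _ (rdp G a ha).1 := by
      rw [← map_nsmul, ← map_sub, ← map_sub]
      rfl
    refine e1.trans ?_
    rw [sum_rdp]
    have e2 : G.sum (AlgebraicClosure K) z0.1 = G.sum _ w0.1 + m • a := e
    rw [e2, add_sub_cancel_left, sub_self]
    rfl)
  refine ⟨z'.cl + Gp.clsH V K (rdp G a ha), ?_⟩
  have e3 : Gp.clsH V K (z0 - w0 - m • rdp G a ha) = m • z'.cl := h'
  have e4 : z.cl = Gp.clsH V K z0 := rfl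
  have e5 : w.cl = Gp.clsH V K w0 := rfl
  rw [map_sub, map_sub, map_nsmul] at e3
  rw [e4, e5, smul_add, ← e3]
  abel

end loc

section nf

variable {F : Type} [Field F] [NumberField F] {V : Vr F} (G : Gr V)

/-- The sums are `0` at all places. -/
def AlbSA (c : Fam V) : Prop :=
  (∀ v, G.sum _ (c.f v).cy = (G.grp (AlgebraicClosure (FK F v))).zero) ∧
    ∀ v, G.sum _ (c.i v).cy = (G.grp (AlgebraicClosure (IK F v))).zero

/-- The sums of `z` are, at `Λ`, those of the image of an element of the completion of `F^1(V)`. -/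
def SumIm (Λ : Set ℕ) (z : LHat (FA V)) : Prop :=
  ∃ x : LHat (Gp V F), ∀ m : ℕ+, Sf Λ m → ∃ (c : Zc V F) (c' d : Fam V), IsBcF c c' ∧
    x.Rep m c.cl ∧ z.Rep m d.cl ∧ ∀ v : HeightOneSpectrum (𝓞 F),
      Smq G m (FK F v) (G.sum _ (c'.f v).cy) (G.sum _ (d.f v).cy)

/-- The sums of `z` are, at `Λ`, the images of an element of the completion of `V(F)`. -/
def PtIm (Λ : Set ℕ) (z : LHat (FA V)) : Prop :=
  letI := G.grp F
  ∃ x : LHat (V.pt F), ∀ m : ℕ+, Sf Λ m → ∃ (a : V.pt F) (d : Fam V),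
    x.Rep m a ∧ z.Rep m d.cl ∧ ∀ v : HeightOneSpectrum (𝓞 F),
      Smq G m (FK F v) (V.map (Algebra.ofId F _) a) (G.sum _ (d.f v).cy)

variable {G} {Λ : Set ℕ}

/-- The Albanese kernel of the families is divisible by the numbers with all prime factors in `Λ`. -/
theorem fam_dvS (h2 : 2 ∉ Λ) (h : ∀ l ∈ Λ, l.Prime → ∀ v : HeightOneSpectrum (𝓞 F),
      DvS G (FK F v) (AlgebraicClosure (FK F v)) l)
    (n : ℕ) (hn : n ≠ 0) (hS : Sf Λ n) (c : Fam V) (hc : AlbSA G c) :
    ∃ c' : Fam V, AlbSA G c' ∧ c.cl = n • c'.cl := by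
  choose g hg hg' using fun v => dvS_cl (dvS_of (fun l hl hp => h l hl hp v) n hn hS) (c.f v)
    (hc.1 v)
  have h3 : Odd n := by
    rw [← Nat.not_even_iff_odd, even_iff_two_dvd]
    exact fun h' => h2 (hS 2 Nat.prime_two h')
  refine ⟨(g, c.i), ⟨hg, hc.2⟩, Prod.ext (funext hg') (funext fun v => ?_)⟩
  change (c.i v).clN = n • (c.i v).clN
  obtain ⟨k, rfl⟩ := h3
  rw [add_smul, one_smul, mul_smul, smul_comm, clN_two, smul_zero, zero_add]

/-- Families with the same sums modulo `m` have the same class modulo `m`. -/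
theorem fam_smq {m : ℕ} (hm : Odd m) (h : ∀ v : HeightOneSpectrum (𝓞 F),
      DvS G (FK F v) (AlgebraicClosure (FK F v)) m) (c d : Fam V)
    (hc : ∀ v : HeightOneSpectrum (𝓞 F),
      Smq G m (FK F v) (G.sum _ (c.f v).cy) (G.sum _ (d.f v).cy)) :
    ∃ u : FA V, c.cl = d.cl + m • u := by
  choose g hg using fun v => cl_of_smq (h v) (c.f v) (d.f v) (hc v)
  refine ⟨(g, fun v => (c.i v).clN - (d.i v).clN), Prod.ext (funext hg) (funext fun v => ?_)⟩
  change (c.i v).clN = (d.i v).clN + m • ((c.i v).clN - (d.i v).clN)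
  obtain ⟨k, rfl⟩ := hm
  rw [add_smul, one_smul, mul_smul, smul_sub, smul_sub, smul_comm 2 k, smul_comm 2 k, clN_two,
    clN_two, smul_zero, sub_self, zero_add, add_sub_cancel]

/-- **The completed statement.** -/
theorem imDeS_sum (h2 : 2 ∉ Λ) (h : ∀ l ∈ Λ, l.Prime → ∀ v : HeightOneSpectrum (𝓞 F),
      DvS G (FK F v) (AlgebraicClosure (FK F v)) l) (z : LHat (FA V)) :
    ImDeS Λ z ↔ SumIm G Λ z := by
  constructor
  · rintro ⟨x, hx⟩
    refine ⟨x, fun m hm => ?_⟩
    obtain ⟨c, c', h1, h3, h4⟩ := hx m hm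
    refine ⟨c, c', c', h1, h3, h4, fun v => ?_⟩
    let _ : AddCommGroup (V.pt (AlgebraicClosure (FK F v))) := G.grp _
    refine ⟨0, rat_zero G, ?_⟩
    rw [smul_zero, add_zero]
  · rintro ⟨x, hx⟩
    refine ⟨x, fun m hm => ?_⟩
    obtain ⟨c, c', d, h1, h3, h4, h5⟩ := hx m hm
    refine ⟨c, c', h1, h3, ?_⟩
    have h6 : Odd (m : ℕ) := by
      rw [← Nat.not_even_iff_odd, even_iff_two_dvd]
      exact fun h' => h2 (hm 2 Nat.prime_two h')
    obtain ⟨u, hu⟩ := fam_smq h6 (fun v => dvS_of (fun l hl hp => h l hl hp v) m m.ne_zero hm)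
      c' d h5
    rw [hu]
    exact rep_add h4 u

end nf

end AV
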