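import Pool.Agent.Lib.MP_f80667_ag.Av.Push

/-!
Divisibility of the Albanese kernel of a factor of a Jacobian.

* `mp`: the full inverse image `Σ_x z(x) Σ_{m y = x} [y]` of a cycle `z` under the multiplication by `m`.
* `fac_dv`: if the Albanese kernel of the Jacobian is `l`-divisible, so is that of a factor, for `l` prime to the
  number `N` of the points killed by `m`.
-/

open ZC BE Polynomial IntermediateField

namespace AV

open CV

section pull

variable {A : Type*} [AddCommGroup A] {m : ℕ}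

/-- The points `y` with `m y = x`. -/
noncomputable def fib (hm : ∀ x : A, ∃ y, m • y = x) (hf : {x : A | m • x = 0}.Finite) (x : A) :
    Finset A :=
  hf.toFinset.map ⟨fun y => (hm x).choose + y, fun _ _ h => add_left_cancel h⟩

variable (hm : ∀ x : A, ∃ y, m • y = x) (hf : {x : A | m • x = 0}.Finite)

theorem mem_fib {x y : A} : y ∈ fib hm hf x ↔ m • y = x := by
  rw [fib, Finset.mem_map]
  constructor
  · rintro ⟨t, ht, rfl⟩
    have h1 : m • t = 0 := by simpa using ht
    change m • ((hm x).choose + t) = x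
    rw [smul_add, h1, add_zero, (hm x).choose_spec]
  · intro h
    refine ⟨y - (hm x).choose, ?_, ?_⟩
    · simp only [Set.Finite.mem_toFinset, Set.mem_ofPred_eq]
      rw [smul_sub, h, (hm x).choose_spec, sub_self]
    · change (hm x).choose + (y - (hm x).choose) = y
      abel

theorem card_fib (x : A) : (fib hm hf x).card = hf.toFinset.card := Finset.card_map _

/-- The inverse image of a cycle. -/
noncomputable def mp : (A →₀ ℤ) →+ (A →₀ ℤ) :=
  Finsupp.liftAddHom fun x => ∑ y ∈ fib hm hf x, Finsupp.singleAddHom y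

theorem mp_single (x : A) (n : ℤ) :
    mp hm hf (Finsupp.single x n) = ∑ y ∈ fib hm hf x, Finsupp.single y n := by
  rw [mp, Finsupp.liftAddHom_apply_single, AddMonoidHom.finsetSum_apply]
  rfl

/-- Proof: the points of the fibre go to the same point. -/
theorem map_mp (z : A →₀ ℤ) :
    Finsupp.mapDomain (fun y : A => m • y) (mp hm hf z) = hf.toFinset.card • z := by
  have h1 : (Finsupp.mapDomain.addMonoidHom (fun y : A => m • y)).comp (mp hm hf) =
      hf.toFinset.card • AddMonoidHom.id (A →₀ ℤ) := by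
    refine Finsupp.addHom_ext fun x n => ?_
    rw [AddMonoidHom.comp_apply, mp_single, map_sum]
    have h2 : ∀ y ∈ fib hm hf x, Finsupp.mapDomain.addMonoidHom (fun y : A => m • y)
        (Finsupp.single y n) = Finsupp.single x n := by
      intro y hy
      rw [Finsupp.mapDomain.addMonoidHom_apply, Finsupp.mapDomain_single, (mem_fib hm hf).1 hy]
    rw [Finset.sum_congr rfl h2, Finset.sum_const, card_fib]
    rfl
  exact DFunLike.congr_fun h1 z

/-- Automorphisms permute the fibres. -/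
theorem mp_act (σ : A ≃+ A) (z : A →₀ ℤ) :
    Finsupp.mapDomain σ (mp hm hf z) = mp hm hf (Finsupp.mapDomain σ z) := by
  have h1 : (Finsupp.mapDomain.addMonoidHom σ).comp (mp hm hf) =
      (mp hm hf).comp (Finsupp.mapDomain.addMonoidHom σ) := by
    refine Finsupp.addHom_ext fun x n => ?_
    rw [AddMonoidHom.comp_apply, AddMonoidHom.comp_apply, Finsupp.mapDomain.addMonoidHom_apply,
      Finsupp.mapDomain.addMonoidHom_apply, Finsupp.mapDomain_single, mp_single, mp_single,
      Finsupp.mapDomain_finsetSum]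
    refine Finset.sum_bij' (fun y _ => σ y) (fun y _ => σ.symm y) ?_ ?_ ?_ ?_ ?_
    · intro y hy
      rw [mem_fib] at hy ⊢
      rw [← map_nsmul, hy]
    · intro y hy
      rw [mem_fib] at hy ⊢
      rw [← map_nsmul, hy, σ.symm_apply_apply]
    · intro y _
      exact σ.symm_apply_apply y
    · intro y _
      exact σ.apply_symm_apply y
    · intro y _
      rw [Finsupp.mapDomain_single]
  exact DFunLike.congr_fun h1 z

end pull

section main

variable {F : Type} [Field F] {V : Vr F} {k : Type} [Field k] [Algebra F k] {ι : Type}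
  {C : ι → Crv k}
  {K : Type} [Field K] [Algebra k K] [Algebra F K] [IsScalarTower F k K]
  {Ω : Type} [Field Ω] [Algebra K Ω] [Algebra k Ω] [Algebra F Ω] [IsScalarTower k K Ω]
  [IsScalarTower F k Ω] [IsScalarTower F K Ω] [IsAlgClosed Ω]

/-- **Factors of Jacobians.**

Proof. `z` of degree `0` and sum `0`. `P = mp z`: `m_* P = N z` (`map_mp`), `N` the number of points killed by `m`, invariant
(`mp_act`); `a` the sum of `P`: `m a = N (sum z) = 0`; `P' = P - [a] + [0]` has degree `0`, sum `0` and `m_* P' = N z`. So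
`N z = q_* s_* P'` and `s_* P'` is of degree `0` and sum `0`: `s_* P' = l u` modulo rational equivalence, `N z = l q_* u`, and `l` is prime to `N`. -/
theorem fac_dv (hV : Fct V) {G : Gr V} {m N l : ℕ} (f : Fac k C G m) (hT : Tor G m N)
    (hl : l.Coprime N) (h : DvS (grP C) K Ω l) : DvS G K Ω l := by
  intro z hz hs
  let _ : AddCommGroup (V.pt Ω) := G.grp Ω
  have hcard : Nat.card {x : V.pt Ω // m • x = 0} = N := hT.tor Ω
  have hf : {x : V.pt Ω | m • x = 0}.Finite := by
    have h1 : Nat.card {x : V.pt Ω // m • x = 0} ≠ 0 := by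
      rw [hcard]
      exact hT.ne
    exact (Nat.finite_of_card_ne_zero h1 : Finite {x : V.pt Ω // m • x = 0})
  have hm : ∀ x : V.pt Ω, ∃ y, m • y = x := hT.div Ω
  have hN : hf.toFinset.card = N := by
    rw [← hcard]
    exact (Nat.card_eq_card_finite_toFinset hf).symm
  have hs0 : G.sum Ω z = 0 := hs
  -- the automorphisms
  have hcomp : ∀ (σ τ : Ω ≃ₐ[K] Ω) (x : V.pt Ω), V.act (σ * τ) x = V.act σ (V.act τ x) :=
    fun σ τ x => hV.comp Ω Ω Ω (τ.restrictScalars F : Ω →ₐ[F] Ω)
      (σ.restrictScalars F : Ω →ₐ[F] Ω) x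
  have hone : ∀ x : V.pt Ω, V.act (1 : Ω ≃ₐ[K] Ω) x = x := fun x => hV.id Ω x
  have hact : ∀ σ : Ω ≃ₐ[K] Ω, ∃ e : V.pt Ω ≃+ V.pt Ω, ∀ x, e x = V.act σ x := fun σ =>
    ⟨{ toFun := V.act σ
       invFun := V.act σ⁻¹
       left_inv := fun x => by rw [← hcomp, inv_mul_cancel, hone]
       right_inv := fun x => by rw [← hcomp, mul_inv_cancel, hone]
       map_add' := fun x y => G.map_add Ω Ω (σ.restrictScalars F : Ω →ₐ[F] Ω) x y },
      fun x => rfl⟩
  have hsum : ∀ (σ : Ω ≃ₐ[K] Ω) (w : V.pt Ω →₀ ℤ),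
      G.sum Ω (Finsupp.mapDomain (V.act σ) w) = V.act σ (G.sum Ω w) := fun σ w =>
    sum_map G G (V.act σ) (fun x y => G.map_add Ω Ω (σ.restrictScalars F : Ω →ₐ[F] Ω) x y) w
  -- the inverse image
  obtain ⟨P, hP⟩ : ∃ P, P = mp hm hf z := ⟨_, rfl⟩
  have hP1 : Finsupp.mapDomain (fun y : V.pt Ω => m • y) P = N • z := by
    rw [hP, map_mp, hN]
  have hP2 : ∀ σ : Ω ≃ₐ[K] Ω, Finsupp.mapDomain (V.act σ) P = P := by
    intro σ
    obtain ⟨e, he⟩ := hact σ
    have h1 := mp_act hm hf e z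
    have h2 : (e : V.pt Ω → V.pt Ω) = V.act σ := funext he
    rw [h2, hz.1 σ] at h1
    rw [hP]
    exact h1
  obtain ⟨a, ha⟩ : ∃ a, a = G.sum Ω P := ⟨_, rfl⟩
  have hmadd : ∀ x y : V.pt Ω, m • ((G.grp Ω).add x y) = (G.grp Ω).add (m • x) (m • y) :=
    fun x y => nsmul_add x y m
  have ha1 : m • a = 0 := by
    have h1 := sum_map G G (fun y : V.pt Ω => m • y) hmadd P
    rw [hP1, map_nsmul, hs0, smul_zero] at h1
    rw [ha]
    exact h1.symm
  have ha2 : ∀ σ : Ω ≃ₐ[K] Ω, V.act σ a = a := by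
    intro σ
    rw [ha, ← hsum, hP2]
  have h0 : ∀ σ : Ω ≃ₐ[K] Ω, V.act σ (0 : V.pt Ω) = 0 := fun σ => by
    obtain ⟨e, he⟩ := hact σ
    rw [← he]
    exact map_zero e
  obtain ⟨P', hP'⟩ : ∃ P', P' = P - Finsupp.single a 1 + Finsupp.single 0 1 := ⟨_, rfl⟩
  have hmd : ∀ (f : V.pt Ω → V.pt Ω) (x y : V.pt Ω →₀ ℤ), Finsupp.mapDomain f (x - y) =
      Finsupp.mapDomain f x - Finsupp.mapDomain f y := fun f x y =>
    (Finsupp.mapDomain.addMonoidHom (M := ℤ) f).map_sub x y
  have h1 : Finsupp.mapDomain (fun y : V.pt Ω => m • y) P' = N • z := by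
    rw [hP', Finsupp.mapDomain_add, hmd, hP1, Finsupp.mapDomain_single,
      Finsupp.mapDomain_single, ha1, smul_zero, sub_add_cancel]
  have hdeg : V.deg Ω P = 0 := by
    have h2 : V.deg Ω (Finsupp.mapDomain (fun y : V.pt Ω => m • y) P) = V.deg Ω P := Mo.deg _ P
    rw [← h2, hP1, map_nsmul, show V.deg Ω z = 0 from hz.2, smul_zero]
  have hone : ∀ x : V.pt Ω, V.deg Ω (Finsupp.single x 1) = 1 := fun x => by
    rw [Vr.deg, Finsupp.liftAddHom_apply_single]
    rfl
  have h2 : P' ∈ V.D0 K Ω := by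
    refine ⟨fun σ => ?_, ?_⟩
    · rw [hP', Finsupp.mapDomain_add, hmd, hP2, Finsupp.mapDomain_single,
        Finsupp.mapDomain_single, ha2, h0]
    · change V.deg Ω P' = 0
      rw [hP', map_add, map_sub, hdeg, hone, hone]
      norm_num
  have h3 : G.sum Ω P' = 0 := by
    have h4 : G.sum Ω (Finsupp.single a 1) = a := by
      rw [sum_single]
      exact one_zsmul a
    have h5 : G.sum Ω (Finsupp.single (0 : V.pt Ω) 1) = 0 := by
      rw [sum_single]
      exact one_zsmul 0
    rw [hP', map_add, map_sub, h4, h5, ← ha, sub_self, zero_add]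
  -- the Jacobian
  obtain ⟨u, hu, hu0, hr⟩ := h (Finsupp.mapDomain (f.s.f Ω) P') (f.s.D0 h2) (by
    rw [sum_map G (grP C) (f.s.f Ω) (fun x y => f.hs Ω x y) P', h3]
    exact hom_zero (G := G) (G' := grP C) fun x y => f.hs Ω x y)
  have h4 := f.q.ratEq hr
  have h5 : Finsupp.mapDomain (f.q.f Ω) (Finsupp.mapDomain (f.s.f Ω) P' - l • u) =
      N • z - l • Finsupp.mapDomain (f.q.f Ω) u := by
    have h6 := (Finsupp.mapDomain.addMonoidHom (M := ℤ) (f.q.f Ω)).map_sub
      (Finsupp.mapDomain (f.s.f Ω) P') (l • u)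
    rw [map_nsmul] at h6
    refine h6.trans ?_
    congr 1
    rw [Finsupp.mapDomain.addMonoidHom_apply, ← Finsupp.mapDomain_comp, ← h1]
    exact congrArg (fun g => Finsupp.mapDomain g P') (funext fun x => f.qs Ω x)
  rw [h5] at h4
  have h6 : G.sum Ω (Finsupp.mapDomain (f.q.f Ω) u) = 0 := by
    rw [sum_map (grP C) G (f.q.f Ω) (fun x y => f.hq Ω x y) u, hu0]
    exact hom_zero (G := grP C) (G' := G) fun x y => f.hq Ω x y
  -- Bezout
  have hb : IsCoprime (N : ℤ) (l : ℤ) := (Nat.isCoprime_iff_coprime.2 hl).symm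
  obtain ⟨α, β, hab⟩ := hb
  refine ⟨α • Finsupp.mapDomain (f.q.f Ω) u + β • z, ?_, ?_, ?_⟩
  · exact add_mem (zsmul_mem (f.q.D0 hu) α) (zsmul_mem hz β)
  · change G.sum Ω _ = 0
    rw [map_add, map_zsmul, map_zsmul, h6, hs0, smul_zero, smul_zero, add_zero]
  · have h7 : z - l • (α • Finsupp.mapDomain (f.q.f Ω) u + β • z) =
        α • (N • z - l • Finsupp.mapDomain (f.q.f Ω) u) := by
      have h8 : z = (α * N + β * l) • z := by rw [hab, one_zsmul]
      have h9 : (l : ℕ) • (α • Finsupp.mapDomain (f.q.f Ω) u + β • z) =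
          (l : ℤ) • (α • Finsupp.mapDomain (f.q.f Ω) u + β • z) := (natCast_zsmul _ _).symm
      have h10 : α • (N • z - l • Finsupp.mapDomain (f.q.f Ω) u) =
          α • ((N : ℤ) • z - (l : ℤ) • Finsupp.mapDomain (f.q.f Ω) u) := by
        rw [natCast_zsmul, natCast_zsmul]
      rw [h9, h10]
      nth_rewrite 1 [h8]
      module
    rw [h7]
    exact zsmul_mem h4 α

end main

end AV
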