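import Pool.Agent.Lib.MP_f80667_ag.Av.Fin

/-! Products of Jacobians as abelian varieties. -/

open ZC BE PE Polynomial IntermediateField IsDedekindDomain NumberField

namespace AV

open CV

section mo

variable {F : Type} [Field F] {k : Type} [Field k] [Algebra F k]

theorem alg_eq {L : Type} [Field L] [Algebra k L] (i₁ i₂ : Algebra F L)
    (h₁ : @IsScalarTower F k L _ _ i₁.toSMul) (h₂ : @IsScalarTower F k L _ _ i₂.toSMul) :
    i₁ = i₂ :=
  Algebra.algebra_ext _ _ fun a => by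
    rw [@IsScalarTower.algebraMap_apply F k L _ _ _ _ _ i₁ h₁,
      @IsScalarTower.algebraMap_apply F k L _ _ _ _ _ i₂ h₂]

theorem alg_self {L : Type} [Field L] (i : Algebra F L) :
    @IsScalarTower F F L (Algebra.id F).toSMul i.toSMul i.toSMul :=
  inferInstance

/-- A morphism over `F` is a morphism over `k`. -/
def Mk.ofMo {V V' : Vr F} (φ : Mo V V') : Mk k V V' where
  f L _ _ i₁ i₂ h₁ h₂ x := @Mo.f F _ V V' φ L _ i₂
    (cast (congrArg (fun i => @Vr.pt F _ V L _ i) (alg_eq (k := k) i₁ i₂ h₁ h₂)) x)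
  nat L M _ _ i₁ i₂ h₁ h₂ _ _ j₁ j₂ g₁ g₂ σ x := by
    obtain rfl := alg_eq (k := k) i₁ i₂ h₁ h₂
    obtain rfl := alg_eq (k := k) j₁ j₂ g₁ g₂
    exact φ.nat L M (σ.restrictScalars F) x
  red K L Ω _ _ _ _ _ _ i₁ i₂ h₁ h₂ _ _ _ _ j₁ j₂ g₁ g₂ w x y h := by
    obtain rfl := alg_eq (k := k) i₁ i₂ h₁ h₂
    obtain rfl := alg_eq (k := k) j₁ j₂ g₁ g₂
    exact φ.red K L Ω w x y h

/-- The identity. -/
def idMo (V : Vr F) : Mo V V where
  f _ _ _ x := x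
  nat _ _ _ _ _ _ _ _ := rfl
  red _ _ _ _ _ _ _ _ _ _ _ _ _ h := h

end mo

section jac

variable {F : Type} [Field F] {n : ℕ} (C : Fin n → Crv F)

/-- The product of the Jacobians as a factor of itself. -/
noncomputable def facJ : Fac F C (grP C) 1 where
  q := Mk.ofMo (idMo (JJ C))
  s := Mk.ofMo (idMo (JJ C))
  hq L _ i₀ i₁ i₂ h₁ h₂ x y := by
    obtain rfl := @alg_eq F _ F _ _ L _ i₀ i₁ i₂ h₁ h₂
    rfl
  hs L _ i₀ i₁ i₂ h₁ h₂ x y := by
    obtain rfl := @alg_eq F _ F _ _ L _ i₀ i₁ i₂ h₁ h₂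
    rfl
  qs L _ i₀ i₁ h₁ x := by
    obtain rfl := @alg_eq F _ F _ _ L _ i₀ i₀ i₁ (alg_self i₀) h₁
    let _ := (grP C).grp L
    exact (one_nsmul (x : (JJ C).pt L)).symm

theorem torJ : Tor (grP C) 1 1 where
  ne := one_ne_zero
  div Ω _ _ _ := by
    let _ := (grP C).grp Ω
    intro x
    exact ⟨x, one_nsmul x⟩
  tor Ω _ _ _ := by
    let _ := (grP C).grp Ω
    rw [Nat.card_eq_one_iff_unique]
    refine ⟨⟨fun a b => Subtype.ext ?_⟩, ⟨⟨0, smul_zero 1⟩⟩⟩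
    have h1 : ∀ a : {x : (JJ C).pt Ω // 1 • x = 0}, a.1 = 0 := fun a => by
      have := a.2
      rwa [one_nsmul] at this
    rw [h1 a, h1 b]

end jac

end AV
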