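import Pool.Agent.Lib.MP_f80667_ag.Av.Defs

/-!
Push-forwards by morphisms over an extension of the base fields, sums of cycles.
-/

open ZC BE Polynomial IntermediateField

namespace AV

open CV

section push

variable {k : Type} [Field k] {F₁ F₂ : Type} [Field F₁] [Field F₂] [Algebra F₁ k]
  [Algebra F₂ k] {V₁ : Vr F₁} {V₂ : Vr F₂}
  {K : Type} [Field K] [Algebra k K] [Algebra F₁ K] [Algebra F₂ K] [IsScalarTower F₁ k K]
  [IsScalarTower F₂ k K] {Ω : Type} [Field Ω] [Algebra K Ω] [Algebra k Ω] [Algebra F₁ Ω]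
  [Algebra F₂ Ω] [IsScalarTower k K Ω] [IsScalarTower F₁ k Ω] [IsScalarTower F₂ k Ω]

/-- Cycles rationally equivalent to `0` go to such cycles. -/
theorem Mk.ratEq (φ : Mk k V₁ V₂) {z : V₁.pt Ω →₀ ℤ}
    (hz : z ∈ V₁.ratEq K Ω) : Finsupp.mapDomain (φ.f Ω) z ∈ V₂.ratEq K Ω := by
  have h : V₁.ratEq K Ω ≤ (V₂.ratEq K Ω).comap (Finsupp.mapDomain.addMonoidHom (φ.f Ω)) := by
    rw [Vr.ratEq, AddSubgroup.closure_le]
    rintro _ ⟨E, i1, i2, i3, i4, hE, g, x, hg, hx, S, m, y, hS, hv, rfl⟩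
    change Finsupp.mapDomain (φ.f Ω) _ ∈ V₂.ratEq K Ω
    rw [Finsupp.mapDomain_finsetSum]
    let j1 : Algebra k E := ((algebraMap K E).comp (algebraMap k K)).toAlgebra
    let j2 : Algebra F₂ E := ((algebraMap K E).comp (algebraMap F₂ K)).toAlgebra
    have j3 : IsScalarTower k K E := IsScalarTower.of_algebraMap_eq fun _ => rfl
    have j4 : IsScalarTower F₂ K E := IsScalarTower.of_algebraMap_eq fun _ => rfl
    have j5 : IsScalarTower F₂ k E := IsScalarTower.of_algebraMap_eq fun a => by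
      rw [IsScalarTower.algebraMap_apply k K E, IsScalarTower.algebraMap_apply F₂ K E,
        IsScalarTower.algebraMap_apply F₂ k K]
    have j6 : IsScalarTower F₁ k E := IsScalarTower.of_algebraMap_eq fun a => by
      rw [IsScalarTower.algebraMap_apply k K E, IsScalarTower.algebraMap_apply F₁ K E,
        IsScalarTower.algebraMap_apply F₁ k K]
    have j7 : IsScalarTower k E (AlgebraicClosure E) := inferInstance
    have j8 : IsScalarTower k K (AlgebraicClosure E) :=
      IsScalarTower.of_algebraMap_eq fun a => by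
        rw [IsScalarTower.algebraMap_apply k E (AlgebraicClosure E),
          IsScalarTower.algebraMap_apply K E (AlgebraicClosure E),
          IsScalarTower.algebraMap_apply k K E]
    refine AddSubgroup.subset_closure ⟨E, i1, i2, j2, j4, hE, g, φ.f _ x, hg, fun σ => ?_, S, m,
      fun w => φ.f Ω (y w), hS, fun w hw => ⟨(hv w hw).1, ?_⟩, ?_⟩
    · have h1 := φ.nat (AlgebraicClosure E) (AlgebraicClosure E)
        (σ.restrictScalars k : AlgebraicClosure E →ₐ[k] AlgebraicClosure E) x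
      refine Eq.trans ?_ (h1.trans (congrArg (φ.f _) (hx σ)))
      rfl
    · obtain ⟨W, h1, h2, h3⟩ := (hv w hw).2
      exact ⟨W, h1, h2, φ.red _ _ _ W x (y w) h3⟩
    · refine Finset.sum_congr rfl fun w _ => ?_
      rw [Finsupp.mapDomain_single]
  exact h hz

variable [IsScalarTower F₁ K Ω] [IsScalarTower F₂ K Ω]

omit [IsScalarTower F₁ k K] [IsScalarTower F₂ k K] in
theorem Mk.act (φ : Mk k V₁ V₂) (σ : Ω ≃ₐ[K] Ω) (x : V₁.pt Ω) :
    V₂.act σ (φ.f Ω x) = φ.f Ω (V₁.act σ x) :=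
  φ.nat Ω Ω (σ.restrictScalars k : Ω →ₐ[k] Ω) x

omit [IsScalarTower F₁ k K] [IsScalarTower F₂ k K] in
/-- Cycles of degree `0` go to such cycles. -/
theorem Mk.D0 (φ : Mk k V₁ V₂) {z : V₁.pt Ω →₀ ℤ} (hz : z ∈ V₁.D0 K Ω) :
    Finsupp.mapDomain (φ.f Ω) z ∈ V₂.D0 K Ω := by
  have hdeg : ∀ z : V₁.pt Ω →₀ ℤ, V₂.deg Ω (Finsupp.mapDomain (φ.f Ω) z) = V₁.deg Ω z := by
    intro z
    induction z using Finsupp.induction_linear with
    | zero => rw [Finsupp.mapDomain_zero, map_zero, map_zero]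
    | add f g hf hg => rw [Finsupp.mapDomain_add, map_add, map_add, hf, hg]
    | single a n => rw [Finsupp.mapDomain_single, Vr.deg, Vr.deg,
        Finsupp.liftAddHom_apply_single, Finsupp.liftAddHom_apply_single]
  refine ⟨fun σ => ?_, (hdeg z).trans hz.2⟩
  rw [← Finsupp.mapDomain_comp]
  have h1 : V₂.act σ ∘ φ.f Ω = φ.f Ω ∘ V₁.act σ := funext fun x => φ.act σ x
  rw [h1, Finsupp.mapDomain_comp]
  exact congrArg _ (hz.1 σ)

end push

section sum

variable {F F' : Type} [Field F] [Field F'] {V : Vr F} {V' : Vr F'} {Ω : Type} [Field Ω]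
  [Algebra F Ω] [Algebra F' Ω]

theorem sum_single (G : Gr V) (x : V.pt Ω) (n : ℤ) :
    G.sum Ω (Finsupp.single x n) = (letI := G.grp Ω; n • x) := by
  let _ := G.grp Ω
  change Finsupp.liftAddHom (fun x => (zmultiplesHom (V.pt Ω)) x) (Finsupp.single x n) = _
  rw [Finsupp.liftAddHom_apply_single]
  rfl

/-- The sum of the image under a homomorphism of the groups of points. -/
theorem sum_map (G : Gr V) (G' : Gr V') (f : V.pt Ω → V'.pt Ω)
    (h : ∀ x y, f ((G.grp Ω).add x y) = (G'.grp Ω).add (f x) (f y)) (z : V.pt Ω →₀ ℤ) :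
    G'.sum Ω (Finsupp.mapDomain f z) = f (G.sum Ω z) := by
  let _ := G.grp Ω
  let _ := G'.grp Ω
  let f' : V.pt Ω →+ V'.pt Ω := AddMonoidHom.mk' f h
  change Finsupp.liftAddHom (fun x => (zmultiplesHom (V'.pt Ω)) x) (Finsupp.mapDomain f' z) =
    f' (Finsupp.liftAddHom (fun x => (zmultiplesHom (V.pt Ω)) x) z)
  have h1 : (Finsupp.liftAddHom (fun x => (zmultiplesHom (V'.pt Ω)) x)).comp
      (Finsupp.mapDomain.addMonoidHom f') =
      f'.comp (Finsupp.liftAddHom (fun x => (zmultiplesHom (V.pt Ω)) x)) := by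
    refine Finsupp.addHom_ext fun x n => ?_
    simp [Finsupp.mapDomain_single]
  exact DFunLike.congr_fun h1 z

theorem hom_zero {G : Gr V} {G' : Gr V'} {f : V.pt Ω → V'.pt Ω}
    (h : ∀ x y, f ((G.grp Ω).add x y) = (G'.grp Ω).add (f x) (f y)) :
    f (G.grp Ω).zero = (G'.grp Ω).zero := by
  let _ := G.grp Ω
  let _ := G'.grp Ω
  exact map_zero (AddMonoidHom.mk' f h)

end sum

/-- The sum of a cycle on the product of the Jacobians. -/
theorem sum_JJ {F : Type} [Field F] {ι : Type} (C : ι → Crv F) {Ω : Type} [Field Ω]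
    [Algebra F Ω] (z : (JJ C).pt Ω →₀ ℤ) (i : ι) :
    (grP C).sum Ω z i = smJ (C i) Ω (Finsupp.mapDomain ((pr i).f Ω) z) := by
  have h : ((Pi.evalAddMonoidHom (fun i => (C i).J.pt Ω) i).comp
      (show (((i : ι) → (C i).J.pt Ω) →₀ ℤ) →+ ((i : ι) → (C i).J.pt Ω) from (grP C).sum Ω)) =
      (show ((((i : ι) → (C i).J.pt Ω) →₀ ℤ) →+ (C i).J.pt Ω) from (smJ (C i) Ω).comp
        (Finsupp.mapDomain.addMonoidHom ((pr (V := fun i => (C i).J) i).f Ω))) := by
    refine Finsupp.addHom_ext fun x n => ?_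
    have e1 : (grP C).sum Ω (Finsupp.single x n) = _ := sum_single (grP C) x n
    have e2 := smJ_single (C := C i) (x i) n
    change (grP C).sum Ω (Finsupp.single x n) i =
      smJ (C i) Ω (Finsupp.mapDomain ((pr (V := fun i => (C i).J) i).f Ω) (Finsupp.single x n))
    rw [e1, Finsupp.mapDomain_single]
    exact e2.symm
  exact DFunLike.congr_fun h z

end AV
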