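import Pool.Agent.Lib.MP_f80667_ag.Cv.JcS

/-! Orderings of several effective cycles. -/

namespace AV

open CV

variable {ι : Type} [Fintype ι] {X Y : ι → Type} {n : ι → ℕ}

open Classical in
/-- The sum of the orderings. -/
noncomputable def syp (P : ∀ i, Fin (n i) → X i) : (∀ p : Σ i, Fin (n i), X p.1) →₀ ℤ :=
  ∑ σ : ∀ i, Equiv.Perm (Fin (n i)), Finsupp.single (fun p => P p.1 (σ p.1 p.2)) 1

theorem syp_eq {P Q : ∀ i, Fin (n i) → X i} (h : ∀ i, Sm.oc (P i) = Sm.oc (Q i)) :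
    syp P = syp Q := by
  classical
  choose τ hτ using fun i => Sm.oc_perm (h i)
  unfold syp
  rw [← Equiv.sum_comp (Equiv.piCongrRight fun i => Equiv.mulLeft (τ i))]
  refine Finset.sum_congr rfl fun σ _ => ?_
  congr 1
  funext p
  rw [hτ p.1]
  rfl

theorem syp_map (f : ∀ i, X i → Y i) (P : ∀ i, Fin (n i) → X i) :
    Finsupp.mapDomain (fun (x : ∀ p : Σ i, Fin (n i), X p.1) (p : Σ i, Fin (n i)) =>
      f p.1 (x p)) (syp P) = syp fun i => f i ∘ P i := by
  unfold syp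
  rw [Finsupp.mapDomain_finsetSum]
  exact Finset.sum_congr rfl fun σ _ => Finsupp.mapDomain_single

theorem syp_const {B : Type} (g : (∀ p : Σ i, Fin (n i), X p.1) → B) {b : B}
    (P : ∀ i, Fin (n i) → X i)
    (h : ∀ σ : ∀ i, Equiv.Perm (Fin (n i)), g (fun p => P p.1 (σ p.1 p.2)) = b) :
    Finsupp.mapDomain g (syp P) = Finsupp.single b (((∏ i, (n i).factorial : ℕ) : ℤ)) := by
  classical
  unfold syp
  rw [Finsupp.mapDomain_finsetSum]
  have h1 : ∀ σ ∈ (Finset.univ : Finset (∀ i, Equiv.Perm (Fin (n i)))),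
      Finsupp.mapDomain g (Finsupp.single (fun p => P p.1 (σ p.1 p.2)) (1 : ℤ)) =
        Finsupp.single b 1 := fun σ _ => by rw [Finsupp.mapDomain_single, h]
  rw [Finset.sum_congr rfl h1, Finset.sum_const, Finset.card_univ, Fintype.card_pi,
    Finsupp.smul_single]
  simp [Fintype.card_perm]

end AV
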