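import Pool.Agent.Lib.MP_f80667_ag.Cv.JcF
import Pool.Agent.Lib.MP_f80667_ag.Av.Sp
import Pool.Agent.Lib.MP_f80667_ag.Av.Push

/-!
The Albanese kernel of a product of Jacobians is `l`-divisible for `l` larger than the genera, if the Albanese kernel of the
product of the powers `C i ^ (gen (C i))` is.
-/

open TensorProduct ZC BE

namespace AV

open CV

section mo

variable {F : Type} [Field F] {ι : Type}

/-- The morphism to a product. -/
def tup {W : Vr F} {V : ι → Vr F} (φ : ∀ i, Mo W (V i)) : Mo W (Vpi V) where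
  f L _ _ x i := (φ i).f L x
  nat L M _ _ _ _ σ x := funext fun i => (φ i).nat L M σ x
  red K L Ω _ _ _ _ _ _ _ w x y h i := (φ i).red K L Ω w x y h

/-- The base point of the Jacobian. -/
noncomputable def bpJ (C : Crv F) : Bp C.J where
  o L _ _ := (0 : Cg (L ⊗[F] C.A))
  nat L M _ _ _ _ σ := map_zero (clX (bA C σ))
  red K L Ω _ _ _ _ _ _ _ w := by
    refine ⟨L, inferInstance, Algebra.id L, inferInstance, inferInstance, inferInstance,
      inferInstance, w, Pov.refl w, 0, Fin.elim0, Fin.elim0, Fin.elim0, fun i => i.elim0, ?_, ?_⟩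
    · rw [map_zero, Finset.univ_eq_empty, Finset.sum_empty]
    · rw [Finset.univ_eq_empty, Finset.sum_empty]

variable (C : ι → Crv F)

/-- The index set. -/
abbrev Ix : Type := Σ i, Fin (C i).gen

/-- The powers of the curves. -/
noncomputable abbrev XX : Vr F := Vpi fun p : Ix C => (C p.1).V

/-- The components with the index `i`. -/
noncomputable def blk (i : ι) : Mo (XX C) (Vpi fun _ : Fin (C i).gen => (C i).V) where
  f _ _ _ x j := x ⟨i, j⟩
  nat _ _ _ _ _ _ _ _ := rfl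
  red _ _ _ _ _ _ _ _ _ _ _ _ _ h j := h ⟨i, j⟩

/-- The morphism to the product of the Jacobians. -/
noncomputable def piP : Mo (XX C) (JJ C) := tup fun i => (piJ (C i) (C i).gen).comp (blk C i)

variable {C}

/-- On the axes the morphism is the Abel - Jacobi map. -/
theorem piP_sc (p : Ix C) {L : Type} [Field L] [Algebra F L] (x : (C p.1).V.pt L) :
    (piP C).f L ((sc (V := fun p : Ix C => (C p.1).V) (fun p => (C p.1).bp) p).f L x) =
      (sc (V := fun i => (C i).J) (fun i => bpJ (C i)) p.1).f L ((ajJ (C p.1)).f L x) := by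
  classical
  funext i
  change ∑ j : Fin (C i).gen, cpt (C := C i) ((sc (V := fun p : Ix C => (C p.1).V)
    (fun p => (C p.1).bp) p).f L x ⟨i, j⟩) = _
  obtain ⟨i', j'⟩ := p
  rcases eq_or_ne i i' with rfl | hi
  · have e1 : (sc (V := fun i => (C i).J) (fun i => bpJ (C i)) i).f L
        ((ajJ (C i)).f L x) i = (ajJ (C i)).f L x := sc_self _ _ _
    refine Eq.trans ?_ e1.symm
    rw [Finset.sum_eq_single j']
    · exact congrArg cpt (sc_self (V := fun p : Ix C => (C p.1).V) (fun p => (C p.1).bp)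
        ⟨i, j'⟩ x)
    · intro j _ hj
      exact congrArg cpt (sc_ne (V := fun p : Ix C => (C p.1).V) (fun p => (C p.1).bp)
        (i := ⟨i, j'⟩) (j := ⟨i, j⟩) (fun h => hj (by simpa using h)) x)
    · intro h
      exact absurd (Finset.mem_univ j') h
  · have e1 : (sc (V := fun i => (C i).J) (fun i => bpJ (C i)) i').f L
        ((ajJ (C i')).f L x) i = (bpJ (C i)).o L := sc_ne _ hi _
    refine Eq.trans ?_ e1.symm
    refine Finset.sum_eq_zero fun j _ => ?_
    exact congrArg cpt (sc_ne (V := fun p : Ix C => (C p.1).V) (fun p => (C p.1).bp)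
      (i := ⟨i', j'⟩) (j := ⟨i, j⟩) (fun h => hi (congrArg Sigma.fst h)) x)

end mo

section jac

variable {F : Type} [Field F] {ι : Type} [Fintype ι] {C : ι → Crv F} {K Ω : Type} [Field K]
  [Field Ω] [Algebra K Ω] [Algebra F K] [Algebra F Ω] [IsScalarTower F K Ω] [IsAlgClosed Ω]

variable (C Ω) in
/-- The cycle of the orderings. -/
noncomputable def yp : ((JJ C).pt Ω →₀ ℤ) →+ ((XX C).pt Ω →₀ ℤ) :=
  Finsupp.liftAddHom fun a => (smulAddHom ℤ ((XX C).pt Ω →₀ ℤ)).flip
    (syp fun i => eP (C := C i) (a i))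

theorem yp_single (a : (JJ C).pt Ω) (n : ℤ) : yp C Ω (Finsupp.single a n) =
    n • syp fun i => eP (C := C i) (a i) := by
  unfold yp
  rw [Finsupp.liftAddHom_apply_single]
  rfl

theorem yp_act (γ : Ω ≃ₐ[K] Ω) (z : (JJ C).pt Ω →₀ ℤ) :
    Finsupp.mapDomain ((XX C).act γ) (yp C Ω z) =
      yp C Ω (Finsupp.mapDomain ((JJ C).act γ) z) := by
  induction z using Finsupp.induction_linear with
  | zero => rw [map_zero, Finsupp.mapDomain_zero, Finsupp.mapDomain_zero, map_zero]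
  | add f g hf hg => rw [map_add, Finsupp.mapDomain_add, Finsupp.mapDomain_add, map_add, hf, hg]
  | single a n =>
    rw [Finsupp.mapDomain_single, yp_single, yp_single]
    have h1 : Finsupp.mapDomain ((XX C).act γ) (n • syp fun i => eP (C := C i) (a i)) =
        n • Finsupp.mapDomain (fun (x : ∀ p : Ix C, (C p.1).V.pt Ω) (p : Ix C) =>
          (C p.1).V.act γ (x p)) (syp fun i => eP (C := C i) (a i)) :=
      (Finsupp.mapDomain.addMonoidHom (M := ℤ) (fun (x : ∀ p : Ix C, (C p.1).V.pt Ω)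
        (p : Ix C) => (C p.1).V.act γ (x p))).map_zsmul _ _
    rw [h1, syp_map (fun i => (C i).V.act γ)]
    congr 1
    refine syp_eq fun i => ?_
    rw [← Sm.oc_map, eP_spec, eP_spec]
    exact ec_act γ _

theorem yp_pi (z : (JJ C).pt Ω →₀ ℤ) :
    Finsupp.mapDomain ((piP C).f Ω) (yp C Ω z) =
      ((∏ i, (C i).gen.factorial : ℕ) : ℤ) • z := by
  induction z using Finsupp.induction_linear with
  | zero => rw [map_zero, Finsupp.mapDomain_zero, smul_zero]
  | add f g hf hg => rw [map_add, Finsupp.mapDomain_add, hf, hg, smul_add]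
  | single a n =>
    rw [yp_single]
    have h1 : Finsupp.mapDomain ((piP C).f Ω) (n • syp fun i => eP (C := C i) (a i)) =
        n • Finsupp.mapDomain ((piP C).f Ω) (syp fun i => eP (C := C i) (a i)) :=
      (Finsupp.mapDomain.addMonoidHom (M := ℤ) ((piP C).f Ω)).map_zsmul _ _
    have h2 := syp_const (b := a) ((piP C).f Ω) (fun i => eP (C := C i) (a i)) fun σ => by
      funext i
      change ∑ j, cpt (C := C i) (eP (C := C i) (a i) (σ i j)) = a i
      rw [Equiv.sum_comp (σ i) fun j => cpt (C := C i) (eP (C := C i) (a i) j)]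
      exact eP_sum (C := C i) (a i)
    refine h1.trans ((congrArg (fun u => n • u) h2).trans ?_)
    rw [Finsupp.smul_single, Finsupp.smul_single, smul_eq_mul, smul_eq_mul, mul_comm]

omit [Fintype ι] [IsAlgClosed Ω] in
/-- The sum of the image. -/
theorem smJ_piP (y : (XX C).pt Ω →₀ ℤ) (i : ι) :
    smJ (C i) Ω (Finsupp.mapDomain ((pr (V := fun i => (C i).J) i).f Ω)
      (Finsupp.mapDomain ((piP C).f Ω) y)) =
      ∑ j : Fin (C i).gen, smC (C i) Ω (Finsupp.mapDomain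
        ((pr (V := fun p : Ix C => (C p.1).V) ⟨i, j⟩).f Ω) y) := by
  have h1 : Finsupp.mapDomain ((pr (V := fun i => (C i).J) i).f Ω)
      (Finsupp.mapDomain ((piP C).f Ω) y) = Finsupp.mapDomain ((piJ (C i) (C i).gen).f Ω)
        (Finsupp.mapDomain ((blk C i).f Ω) y) := by
    rw [← Finsupp.mapDomain_comp, ← Finsupp.mapDomain_comp]
    rfl
  rw [h1, smJ_pi]
  refine Finset.sum_congr rfl fun j _ => ?_
  rw [← Finsupp.mapDomain_comp]
  rfl

/-- **The Albanese kernel of a product of Jacobians.** -/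
theorem dvJP {l : ℕ} (hl : l.Prime) (hg : ∀ i, (C i).gen < l)
    (hpr : ∀ i, ∀ z ∈ Pc (C i) Ω, z ∈ (C i).V.D0 K Ω → z ∈ (C i).V.ratEq K Ω)
    (h : DvG (fun p : Ix C => (C p.1).V) K Ω l) : DvS (grP C) K Ω l := by
  classical
  intro z hz hs
  obtain ⟨D, hD⟩ : ∃ D : ℕ, D = ∏ i, (C i).gen.factorial := ⟨_, rfl⟩
  obtain ⟨y, hy⟩ : ∃ y, y = yp C Ω z := ⟨_, rfl⟩
  have hpi : Finsupp.mapDomain ((piP C).f Ω) y = ((D : ℕ) : ℤ) • z := by
    rw [hy, yp_pi, hD]
  have hyD : y ∈ (XX C).D0 K Ω := by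
    refine ⟨fun γ => ?_, ?_⟩
    · rw [hy, yp_act, hz.1 γ]
    · have h1 := Mo.deg (V := XX C) (V' := JJ C) ((piP C).f Ω) y
      rw [hpi, map_zsmul] at h1
      have h2 : (JJ C).deg Ω z = 0 := hz.2
      rw [h2, smul_zero] at h1
      exact h1.symm
  let o : ∀ p : Ix C, Bp ((C p.1).V) := fun p => (C p.1).bp
  obtain ⟨y', hy'⟩ : ∃ y', y' = piC (V := fun p : Ix C => (C p.1).V) o y := ⟨_, rfl⟩
  have hy'D : y' ∈ (XX C).D0 K Ω := by
    rw [hy']
    exact piC_D0 _ hyD
  obtain ⟨y₂, hy₂, hy₂r, hy₂'⟩ := h y' hy'D fun i => by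
    rw [hy', pr_piC _ i hyD.2]
    exact zero_mem _
  obtain ⟨y₃, hy₃⟩ : ∃ y₃, y₃ = piC (V := fun p : Ix C => (C p.1).V) o y₂ := ⟨_, rfl⟩
  have hy₃D : y₃ ∈ (XX C).D0 K Ω := by
    rw [hy₃]
    exact piC_D0 _ hy₂
  have h3 : y' - l • y₃ ∈ (XX C).ratEq K Ω := by
    have h4 := sub_piC (V := fun p : Ix C => (C p.1).V) o hy₂r
    rw [← hy₃] at h4
    have h5 : y' - l • y₃ = (y' - l • y₂) + l • (y₂ - y₃) := by
      rw [smul_sub]
      abel
    rw [h5]
    exact add_mem hy₂' (nsmul_mem h4 l)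
  -- the part on the axes
  have hsi : ∀ i, smJ (C i) Ω (Finsupp.mapDomain ((pr (V := fun i => (C i).J) i).f Ω) z) = 0 := by
    intro i
    rw [← sum_JJ C z i, hs]
    rfl
  obtain ⟨w, hw⟩ : ∃ w : ∀ i, (C i).V.pt Ω →₀ ℤ, ∀ i, w i = ∑ j : Fin (C i).gen,
    Finsupp.mapDomain ((pr (V := fun p : Ix C => (C p.1).V) ⟨i, j⟩).f Ω) y := ⟨_, fun _ => rfl⟩
  have hwD : ∀ i, w i ∈ (C i).V.D0 K Ω := by
    intro i
    rw [hw]
    exact sum_mem fun j _ => (pr (V := fun p : Ix C => (C p.1).V) ⟨i, j⟩).D0 hyD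
  have hw0 : ∀ i, smC (C i) Ω (w i) = 0 := by
    intro i
    rw [hw, map_sum, ← smJ_piP, hpi]
    have h1 : Finsupp.mapDomain ((pr (V := fun i => (C i).J) i).f Ω) (((D : ℕ) : ℤ) • z) =
        ((D : ℕ) : ℤ) • Finsupp.mapDomain ((pr (V := fun i => (C i).J) i).f Ω) z :=
      (Finsupp.mapDomain.addMonoidHom (M := ℤ) _).map_zsmul _ _
    rw [h1, map_zsmul, hsi, smul_zero]
  have hwr : ∀ i, w i ∈ (C i).V.ratEq K Ω := fun i =>
    hpr i _ (pc_of_smC (hwD i).2 (hw0 i)) (hwD i)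
  have hax : Finsupp.mapDomain ((piP C).f Ω) (y - y') =
      ∑ i, Finsupp.mapDomain ((sc (V := fun i => (C i).J) (fun i => bpJ (C i)) i).f Ω)
        (Finsupp.mapDomain ((ajJ (C i)).f Ω) (w i)) := by
    have h6 : y - y' = ∑ p : Ix C, Finsupp.mapDomain
        ((sc (V := fun p : Ix C => (C p.1).V) o p).f Ω)
        (Finsupp.mapDomain ((pr (V := fun p : Ix C => (C p.1).V) p).f Ω) y) := by
      rw [hy', piC, sub_sub_cancel]
    rw [h6, Finsupp.mapDomain_finsetSum, Fintype.sum_sigma]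
    refine Finset.sum_congr rfl fun i _ => ?_
    rw [hw, Finsupp.mapDomain_finsetSum, Finsupp.mapDomain_finsetSum]
    refine Finset.sum_congr rfl fun j _ => ?_
    rw [← Finsupp.mapDomain_comp, ← Finsupp.mapDomain_comp (g := (sc (V := fun i => (C i).J)
      (fun i => bpJ (C i)) i).f Ω)]
    exact congrArg (fun f => Finsupp.mapDomain f _) (funext fun x => piP_sc ⟨i, j⟩ x)
  have hkey : ((D : ℕ) : ℤ) • z - l • Finsupp.mapDomain ((piP C).f Ω) y₃ ∈
      (JJ C).ratEq K Ω := by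
    have h7 := (piP C).ratEq K Ω h3
    have h8 : Finsupp.mapDomain ((piP C).f Ω) (y - y') ∈ (JJ C).ratEq K Ω := by
      rw [hax]
      exact sum_mem fun i _ => (sc (V := fun i => (C i).J) (fun i => bpJ (C i)) i).ratEq K Ω
        ((ajJ (C i)).ratEq K Ω (hwr i))
    have h9 : ((D : ℕ) : ℤ) • z - l • Finsupp.mapDomain ((piP C).f Ω) y₃ =
        Finsupp.mapDomain ((piP C).f Ω) (y - y') +
          Finsupp.mapDomain ((piP C).f Ω) (y' - l • y₃) := by
      rw [← hpi]
      change Finsupp.mapDomain.addMonoidHom ((piP C).f Ω) y -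
        l • Finsupp.mapDomain.addMonoidHom ((piP C).f Ω) y₃ =
        Finsupp.mapDomain.addMonoidHom ((piP C).f Ω) (y - y') +
          Finsupp.mapDomain.addMonoidHom ((piP C).f Ω) (y' - l • y₃)
      rw [map_sub, map_sub, map_nsmul]
      abel
    rw [h9]
    exact add_mem h8 h7
  have hc : D.Coprime l := by
    rw [hD]
    refine Nat.Coprime.prod_left fun i _ => ?_
    rw [Nat.coprime_comm, hl.coprime_iff_not_dvd, hl.dvd_factorial]
    have := hg i
    omega
  have hb := Nat.gcd_eq_gcd_ab D l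
  rw [hc.gcd_eq_one, Nat.cast_one] at hb
  obtain ⟨a, ha⟩ : ∃ a : ℤ, a = D.gcdA l := ⟨_, rfl⟩
  obtain ⟨b, hb'⟩ : ∃ b : ℤ, b = D.gcdB l := ⟨_, rfl⟩
  rw [← ha, ← hb'] at hb
  obtain ⟨z₁, hz₁⟩ : ∃ z₁, z₁ = Finsupp.mapDomain ((piP C).f Ω) y₃ := ⟨_, rfl⟩
  rw [← hz₁] at hkey
  have hz₁D : z₁ ∈ (JJ C).D0 K Ω := by
    rw [hz₁]
    exact (piP C).D0 hy₃D
  let _ : AddCommGroup ((JJ C).pt Ω) := (grP C).grp Ω
  have hz₁s : (grP C).sum Ω z₁ = 0 := by
    funext i
    rw [sum_JJ, hz₁, smJ_piP]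
    refine Finset.sum_eq_zero fun j _ => ?_
    rw [hy₃, pr_piC _ _ hy₂.2, map_zero]
    rfl
  have hs' : (grP C).sum Ω z = 0 := hs
  refine ⟨a • z₁ + b • z, add_mem (AddSubgroup.zsmul_mem _ hz₁D _)
    (AddSubgroup.zsmul_mem _ hz _), ?_, ?_⟩
  · change (grP C).sum Ω _ = 0
    rw [map_add, map_zsmul, map_zsmul, hz₁s, hs', smul_zero, smul_zero, add_zero]
  · have h10 : z - l • (a • z₁ + b • z) = a • (((D : ℕ) : ℤ) • z - l • z₁) := by
      have h11 : z - l • (a • z₁ + b • z) - a • (((D : ℕ) : ℤ) • z - l • z₁) =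
          (1 - ((D : ℤ) * a + l * b)) • z := by
        simp only [← natCast_zsmul]
        module
      rw [← hb, sub_self, zero_smul] at h11
      exact sub_eq_zero.1 h11
    rw [h10]
    exact AddSubgroup.zsmul_mem _ hkey _

end jac

end AV
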