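import Pool.Agent.Lib.MP_f80667_ag.Av.Push
import Pool.Agent.Lib.MP_f80667_ag.Pe.StE

/-!
Descent of the divisibility of the Albanese kernel from an extension of degree prime to `l` (`dvS_up`), composite numbers
(`dvS_mul`).
-/

open ZC BE PE Polynomial IntermediateField

namespace AV

open CV

section tr

variable {F : Type} [Field F] {V : Vr F} {K : Type} [Field K] [Algebra F K] {Ω : Type}
  [Field Ω] [Algebra K Ω] [Algebra F Ω] [IsScalarTower F K Ω]

/-- The sum of the trace. -/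
theorem sum_vtr [CharZero K] [IsAlgClosure K Ω] (hV : Fct V) (G : Gr V)
    (M : IntermediateField K Ω) [FiniteDimensional K M] {z : V.pt Ω →₀ ℤ}
    (hz : G.sum Ω z = (G.grp Ω).zero) : G.sum Ω (vtr hV K M z) = (G.grp Ω).zero := by
  classical
  let iA := vact hV K Ω
  let _ : AddCommGroup (V.pt Ω) := G.grp Ω
  have hH : M.fixingSubgroup.FiniteIndex := opn_fin _ (opn_fix M)
  let i0 : Fintype ((Ω ≃ₐ[K] Ω) ⧸ M.fixingSubgroup) := Fintype.ofFinite _
  change G.sum Ω (trG (V.pt Ω) M.fixingSubgroup z) = _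
  rw [trG_apply hH, finsum_eq_sum_of_fintype, map_sum]
  refine Finset.sum_eq_zero fun q _ => ?_
  have h1 := sum_map G G (V.act (q.out : Ω ≃ₐ[K] Ω)) (fun x y =>
    G.map_add Ω Ω ((q.out : Ω ≃ₐ[K] Ω).restrictScalars F : Ω →ₐ[F] Ω) x y) z
  refine h1.trans ?_
  rw [hz]
  exact hom_zero (G := G) (G' := G) fun x y =>
    G.map_add Ω Ω ((q.out : Ω ≃ₐ[K] Ω).restrictScalars F : Ω →ₐ[F] Ω) x y

/-- From an extension of degree prime to `l`. -/
theorem dvS_up [CharZero K] [IsAlgClosure K Ω] (hV : Fct V) (G : Gr V)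
    (M : IntermediateField K Ω) [FiniteDimensional K M] [IsScalarTower F M Ω] {l : ℕ}
    (hc : (Module.finrank K M).Coprime l) (h : DvS G M Ω l) : DvS G K Ω l := by
  intro z hz hs
  let _ : AddCommGroup (V.pt Ω) := G.grp Ω
  obtain ⟨z', hz', hs', hr⟩ := h z (D0_res hz) hs
  have h1 : vtr hV K M (z - l • z') ∈ V.ratEq K Ω := tr_ratEqV hV M hr
  rw [map_sub, map_nsmul, vtr_res hV M hz.1] at h1
  have hb := Nat.gcd_eq_gcd_ab (Module.finrank K M) l
  rw [hc.gcd_eq_one, Nat.cast_one] at hb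
  set a : ℤ := (Module.finrank K M).gcdA l
  set b : ℤ := (Module.finrank K M).gcdB l
  have h2 : G.sum Ω z = 0 := hs
  have h3 : G.sum Ω (vtr hV K M z') = 0 := sum_vtr hV G M hs'
  refine ⟨a • vtr hV K M z' + b • z, add_mem (zsmul_mem (vtr_D0 hV M hz') a)
    (zsmul_mem hz b), ?_, ?_⟩
  · change G.sum Ω _ = 0
    rw [map_add, map_zsmul, map_zsmul, h2, h3, smul_zero, smul_zero, add_zero]
  · have h4 : z - l • (a • vtr hV K M z' + b • z) =
        a • (Module.finrank K M • z - l • vtr hV K M z') := by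
      have h5 : z - l • (a • vtr hV K M z' + b • z) -
          a • (Module.finrank K M • z - l • vtr hV K M z') =
          (1 - ((Module.finrank K M : ℤ) * a + l * b)) • z := by
        simp only [← natCast_zsmul]
        module
      rw [← hb, sub_self, zero_smul] at h5
      exact sub_eq_zero.1 h5
    rw [h4]
    exact zsmul_mem h1 _

/-- Composite numbers. -/
theorem dvS_mul {G : Gr V} {l m : ℕ} (h : DvS G K Ω l) (h' : DvS G K Ω m) : DvS G K Ω (l * m) := by
  intro z hz hs
  obtain ⟨y, hy, hs1, hr⟩ := h z hz hs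
  obtain ⟨x, hx, hs2, hr'⟩ := h' y hy hs1
  refine ⟨x, hx, hs2, ?_⟩
  have h1 : z - (l * m) • x = (z - l • y) + l • (y - m • x) := by
    rw [smul_sub, mul_smul]
    abel
  rw [h1]
  exact add_mem hr (nsmul_mem hr' l)

theorem dvS_one {G : Gr V} : DvS G K Ω 1 := fun z hz hs => ⟨z, hz, hs, by
  rw [one_smul, sub_self]
  exact zero_mem _⟩

/-- Numbers with all prime factors in `Λ`. -/
theorem dvS_of {G : Gr V} {Λ : Set ℕ} (h : ∀ l ∈ Λ, l.Prime → DvS G K Ω l) (n : ℕ)
    (hn : n ≠ 0) (hS : Sf Λ n) : DvS G K Ω n := by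
  induction n using induction_on_primes with
  | zero => exact absurd rfl hn
  | one => exact dvS_one
  | prime_mul p m hp ih =>
    exact dvS_mul (h p (hS p hp (dvd_mul_right p m)) hp)
      (ih (right_ne_zero_of_mul hn) fun l hl hd => hS l hl (hd.mul_left p))

end tr

end AV
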