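import Pool.Agent.Lib.MP_f80667_ag.Av.Iso
import Pool.Agent.Lib.MP_f80667_ag.Av.Tr
import Pool.Agent.Lib.MP_f80667_ag.Av.JcP
import Pool.Agent.Lib.MP_f80667_ag.Cv.NfD
import Pool.Agent.Lib.MP_f80667_ag.Cv.Glb

/-!
The local theorem for abelian varieties.

* `Lj l`: the local theorem for the products of Jacobians of curves with good reduction and the prime number `l`.
* `Gda G l K`: over an extension `M` of `K` of degree prime to `l` the variety is, up to multiplication by `m`, a factor of
  the product of the Jacobians of curves `C i` of genus `< l` with good reduction, the number `N` of the points killed by `m`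
  is prime to `l`, and `l` is not in the power `l - 1` of the maximal ideal of the integers of `M` (the `C i` are defined over
  a subfield `k` of `M`).
* `gda_dv`: `Gda` implies that the Albanese kernel is `l`-divisible.
-/

open ZC BE PE Polynomial IntermediateField

namespace AV

open CV

/-- The local theorem for products of Jacobians. -/
def Lj (l : ℕ) : Prop :=
  ∀ (k K Ω : Type) [Field k] [Field K] [Field Ω] [Algebra K Ω] [Algebra k K] [Algebra k Ω]
    [IsScalarTower k K Ω] [CharZero K] [IsAlgClosure K Ω] (L : Ld K Ω) (n : ℕ)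
    (C : Fin n → Crv k), (∀ i, Nonempty (Mod (C i) (Ok L) K)) →
    (l : Ok L) ∉ IsLocalRing.maximalIdeal (Ok L) ^ (l - 1) →
    (∀ i, (C i).gen < l) → DvS (grP C) K Ω l

section jac

variable {F : Type} [Field F] {C : Crv F} {K Ω : Type} [Field K] [Field Ω]
  [Algebra K Ω] [Algebra F K] [Algebra F Ω] [IsScalarTower F K Ω] [CharZero K]
  [IsAlgClosure K Ω]

/-- Principal cycles over `K` are rationally equivalent to `0`. -/
theorem pc_ratEq (h : ExPr C K Ω) {z : C.V.pt Ω →₀ ℤ} (hz : z ∈ Pc C Ω)
    (hz' : z ∈ C.V.D0 K Ω) : z ∈ C.V.ratEq K Ω := by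
  have h1 : z ∈ Zd C.V (⊥ : IntermediateField K Ω) :=
    ⟨fun γ _ => hz'.1 γ, hz'.2⟩
  have h2 := tr_ratEqV C.fct (⊥ : IntermediateField K Ω) (h ⊥ inferInstance z hz h1)
  rw [vtr_res C.fct _ hz'.1, IntermediateField.finrank_bot, one_smul] at h2
  exact h2

end jac

/-- From products of curves to products of Jacobians. -/
theorem lj_of {l : ℕ} (hl : l.Prime)
    (hp : ∀ (k K Ω : Type) [Field k] [Field K] [Field Ω] [Algebra K Ω] [Algebra k K]
      [Algebra k Ω] [IsScalarTower k K Ω] [CharZero K] [IsAlgClosure K Ω] (C : Crv k),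
      ExPr C K Ω)
    (h : ∀ (k : Type) [Field k] (n : ℕ) (C : Fin n → Crv k),
      LcT (fun p : Ix C => C p.1) l) : Lj l := by
  intro k K Ω _ _ _ _ _ _ _ _ _ L n C hM hL hg
  have i1 : IsAlgClosed Ω := IsAlgClosure.isAlgClosed K
  exact dvJP hl hg (fun i z h1 h2 => pc_ratEq (hp k K Ω (C i)) h1 h2)
    (h k n C K Ω L (fun p => hM p.1) hL)

section loc

variable {F : Type} [Field F] {V : Vr F}

/-- The conditions at the prime number `l`. -/
def Gda (G : Gr V) (l : ℕ) (K : Type) [Field K] [Algebra F K] : Prop :=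
  ∃ (M : IntermediateField K (AlgebraicClosure K)) (L : Ld M (AlgebraicClosure K))
    (k : Type) (_ : Field k) (_ : Algebra F k) (_ : Algebra k M) (_ : IsScalarTower F k M)
    (n : ℕ) (C : Fin n → Crv k) (m N : ℕ), FiniteDimensional K M ∧
    (Module.finrank K M).Coprime l ∧ (∀ i, Nonempty (Mod (C i) (Ok L) M)) ∧
    (l : Ok L) ∉ IsLocalRing.maximalIdeal (Ok L) ^ (l - 1) ∧
    Nonempty (Fac k C G m) ∧ Tor G m N ∧ l.Coprime N ∧ ∀ i, (C i).gen < l

/-- **The local theorem for abelian varieties.** -/
theorem gda_dv (hV : Fct V) {G : Gr V} {l : ℕ} (hJ : Lj l) {K : Type} [Field K]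
    [CharZero K] [Algebra F K] (h : Gda G l K) : DvS G K (AlgebraicClosure K) l := by
  obtain ⟨M, L, k, i1, i2, i3, i4, n, C, m, N, hM, hc, hm, hL, ⟨f⟩, hT, hlN, hg⟩ := h
  have h0 : CharZero M := charZero_of_injective_algebraMap (algebraMap K M).injective
  have h2 : IsAlgClosure M (AlgebraicClosure K) :=
    ⟨inferInstance, Algebra.IsAlgebraic.tower_top (K := K) M⟩
  let j1 : Algebra k (AlgebraicClosure K) :=
    ((algebraMap M (AlgebraicClosure K)).comp (algebraMap k M)).toAlgebra
  have j2 : IsScalarTower k M (AlgebraicClosure K) := IsScalarTower.of_algebraMap_eq fun _ => rfl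
  have j3 : IsScalarTower F M (AlgebraicClosure K) := IsScalarTower.of_algebraMap_eq fun _ => rfl
  have j4 : IsScalarTower F k (AlgebraicClosure K) := IsScalarTower.of_algebraMap_eq fun a => by
    rw [IsScalarTower.algebraMap_apply k M (AlgebraicClosure K),
      IsScalarTower.algebraMap_apply F M (AlgebraicClosure K),
      IsScalarTower.algebraMap_apply F k M]
  have h3 : DvS (grP C) M (AlgebraicClosure K) l :=
    hJ k M (AlgebraicClosure K) L n C hm hL hg
  exact dvS_up hV G M hc (fac_dv hV f hT hlN h3)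

end loc

end AV
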