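import Pool.Agent.Lib.MP_f80667_ag.Av.Jb

/-! The theorem on zero-cycles on abelian varieties, from the local theorem for products of Jacobians. -/

open ZC BE PE CV Polynomial IntermediateField IsDedekindDomain NumberField

namespace AV

section nf

variable {F : Type} [Field F] [NumberField F] {V : Vr F} {G : Gr V}

/-- **Almost all prime numbers.** -/
theorem dvS_alm (hV : Fct V) (hJ : ∀ l : ℕ, l.Prime → Lj l) {n : ℕ} {C : Fin n → Crv F}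
    {m N : ℕ} (f : Fac F C G m) (hT : Tor G m N) :
    ∃ S : Set (HeightOneSpectrum (𝓞 F)), S.Finite ∧
      {l : ℕ | l.Prime ∧ ¬ ((∀ v ∈ S, Pga G (FK F v) ∨
        DvS G (FK F v) (AlgebraicClosure (FK F v)) l) → ∀ v : HeightOneSpectrum (𝓞 F),
          DvS G (FK F v) (AlgebraicClosure (FK F v)) l)}.Finite := by
  obtain ⟨S, hS, h⟩ := gla_fin f hT
  exact ⟨S, hS, h.subset fun l hl => ⟨hl.1, fun h1 => hl.2 fun h2 =>
    gla_dv hV (hJ l hl.1) (h1 h2)⟩⟩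

end nf

/-- The theorem. -/
theorem main_A (hJ : ∀ l : ℕ, l.Prime → Lj l) {F : Type} [Field F] {V : Vr F} (hV : Fct V)
    (G : Gr V) :
    (∀ (K : Type) [Field K] [CharZero K] [Algebra F K] (l : ℕ), l.Prime → Gda G l K →
      DvS G K (AlgebraicClosure K) l) ∧
    ∀ [NumberField F],
      (∀ (n : ℕ) (C : Fin n → Crv F) (m N : ℕ), Nonempty (Fac F C G m) → Tor G m N →
        {v : HeightOneSpectrum (𝓞 F) | ¬ ∀ a : ℕ, a ≠ 0 → (∀ l : ℕ, l.Prime → l ∣ a →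
          l.Coprime N ∧ ∀ i, (C i).gen < l) →
            DvS G (FK F v) (AlgebraicClosure (FK F v)) a}.Finite ∧
        ∃ S : Set (HeightOneSpectrum (𝓞 F)), S.Finite ∧
          {l : ℕ | l.Prime ∧ ¬ ((∀ v ∈ S, Pga G (FK F v) ∨
            DvS G (FK F v) (AlgebraicClosure (FK F v)) l) → ∀ v : HeightOneSpectrum (𝓞 F),
              DvS G (FK F v) (AlgebraicClosure (FK F v)) l)}.Finite) ∧
      ∀ Λ : Set ℕ, (∀ l ∈ Λ, l.Prime ∧ l ≠ 2 ∧ ∀ v : HeightOneSpectrum (𝓞 F),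
        DvS G (FK F v) (AlgebraicClosure (FK F v)) l) →
        (∀ a : ℕ, a ≠ 0 → Sf Λ a → ∀ c : Fam V, AlbSA G c →
          ∃ c' : Fam V, AlbSA G c' ∧ c.cl = a • c'.cl) ∧
        ∀ z : LHat (FA V), (ImDeS Λ z ↔ SumIm G Λ z) ∧ (PtIm G Λ z → ImDeS Λ z) := by
  refine ⟨fun K _ _ _ l hl h => gda_dv hV (hJ l hl) h, fun {_} =>
    ⟨fun n C m N ⟨f⟩ hT => ⟨dvS_fin hV hJ f hT, dvS_alm hV hJ f hT⟩, fun Λ h => ?_⟩⟩
  have h2 : 2 ∉ Λ := fun h2 => (h 2 h2).2.1 rfl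
  have h3 : ∀ l ∈ Λ, l.Prime → ∀ v : HeightOneSpectrum (𝓞 F),
      DvS G (FK F v) (AlgebraicClosure (FK F v)) l := fun l hl _ => (h l hl).2.2
  exact ⟨fun a ha hS c hc => fam_dvS h2 h3 a ha hS c hc,
    fun z => ⟨imDeS_sum h2 h3 z, imDeS_pt hV h2 h3⟩⟩

/-- The products of Jacobians. -/
theorem main_J {F : Type} [Field F] (n : ℕ) (C : Fin n → Crv F) :
    Fct (JJ C) ∧ Nonempty (Fac F C (grP C) 1) ∧ Tor (grP C) 1 1 :=
  ⟨Fct.pi fun i => (C i).fctJ, ⟨facJ C⟩, torJ C⟩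

end AV
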