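import Pool.Agent.Lib.MP_f80667_ag.Av.Glo

/-! The completed statement in terms of the points of the abelian variety. -/

open ZC BE PE Polynomial IntermediateField IsDedekindDomain NumberField

namespace AV

open CV

section loc

variable {F : Type} [Field F] {V : Vr F} (G : Gr V) (hV : Fct V) (K : Type) [Field K]
  [Algebra F K]

/-- The point over the algebraic closure of `K` given by a point over `F`. -/
noncomputable def up (p : V.pt F) : V.pt (AlgebraicClosure K) :=
  V.map (Algebra.ofId F (AlgebraicClosure K)) p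

variable {K}

include hV in
theorem rat_up (p : V.pt F) : V.Rat K (up K p) := by
  intro σ
  have h1 := hV.comp F (AlgebraicClosure K) (AlgebraicClosure K)
    (Algebra.ofId F (AlgebraicClosure K))
    (σ.restrictScalars F : AlgebraicClosure K →ₐ[F] AlgebraicClosure K) p
  refine h1.symm.trans ?_
  exact congrArg (fun τ => V.map τ p) (AlgHom.ext fun a => by
    rw [AlgHom.comp_apply, Algebra.ofId_apply, AlgHom.commutes])

theorem up_add (p q : V.pt F) : up K ((G.grp F).add p q) =
    (G.grp (AlgebraicClosure K)).add (up K p) (up K q) :=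
  G.map_add F (AlgebraicClosure K) (Algebra.ofId F (AlgebraicClosure K)) p q

/-- `up` as a homomorphism. -/
noncomputable def upH (K : Type) [Field K] [Algebra F K] :
    letI := G.grp F; letI := G.grp (AlgebraicClosure K);
    V.pt F →+ V.pt (AlgebraicClosure K) :=
  letI := G.grp F
  letI := G.grp (AlgebraicClosure K)
  AddMonoidHom.mk' (up K) (up_add G)

/-- The cycle `[p] - [0]`. -/
noncomputable def pz (K : Type) [Field K] [Algebra F K] (p : V.pt F) : Dz V K :=
  rdp G (up K p) (rat_up hV p)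

/-- The partial sums. -/
noncomputable def yk (K : Type) [Field K] [Algebra F K] (a : V.pt F) (b : ℕ → V.pt F) (n : ℕ) :
    Dz V K :=
  pz G hV K a + ∑ j ∈ Finset.range n, (j + 1).factorial • pz G hV K (b j)

theorem yk_succ (a : V.pt F) (b : ℕ → V.pt F) (n : ℕ) :
    yk G hV K a b (n + 1) = yk G hV K a b n + (n + 1).factorial • pz G hV K (b n) := by
  unfold yk
  rw [Finset.sum_range_succ, add_assoc]

theorem sum_yk (a b : ℕ → V.pt F) (h : letI := G.grp F; ∀ n, a (n + 1) =
    a n + (n + 1).factorial • b n) (n : ℕ) :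
    G.sum _ (yk G hV K (a 0) b n).1 = up K (a n) := by
  let _ : AddCommGroup (V.pt F) := G.grp F
  let _ : AddCommGroup (V.pt (AlgebraicClosure K)) := G.grp _
  induction n with
  | zero =>
    have e : yk G hV K (a 0) b 0 = pz G hV K (a 0) := by
      unfold yk
      rw [Finset.sum_range_zero, add_zero]
    rw [e]
    exact sum_rdp G _ _
  | succ n ih =>
    rw [yk_succ, h n]
    have e1 : G.sum _ (yk G hV K (a 0) b n + (n + 1).factorial • pz G hV K (b n) :
        Dz V K).1 = G.sum _ (yk G hV K (a 0) b n).1 +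
        (n + 1).factorial • G.sum _ (pz G hV K (b n)).1 := by
      rw [← map_nsmul, ← map_add]
      rfl
    have e2 : G.sum _ (pz G hV K (b n)).1 = up K (b n) := sum_rdp G _ _
    rw [e1, ih, e2]
    have e3 : upH G K (a n + (n + 1).factorial • b n) =
        upH G K (a n) + (n + 1).factorial • upH G K (b n) := by
      rw [map_add, map_nsmul]
    exact e3.symm

theorem bc_pz (p : V.pt F) : BE.bc K (pz G hV F p).1 = (pz G hV K p).1 := by
  have h1 := (Finsupp.mapDomain.addMonoidHom (M := ℤ) (V.map (BE.emb F K))).map_sub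
    (Finsupp.single (up F p) 1) (Finsupp.single (G.grp (AlgebraicClosure F)).zero 1)
  have e1 : V.map (BE.emb F K) (up F p) = up K p := by
    have h2 := hV.comp F (AlgebraicClosure F) (AlgebraicClosure K)
      (Algebra.ofId F (AlgebraicClosure F)) (BE.emb F K) p
    refine h2.symm.trans ?_
    exact congrArg (fun τ => V.map τ p) (AlgHom.ext fun a => by
      rw [AlgHom.comp_apply, Algebra.ofId_apply, AlgHom.commutes, Algebra.ofId_apply])
  have e2 : V.map (BE.emb F K) (G.grp (AlgebraicClosure F)).zero =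
      (G.grp (AlgebraicClosure K)).zero := by
    let _ : AddCommGroup (V.pt (AlgebraicClosure F)) := G.grp _
    let _ : AddCommGroup (V.pt (AlgebraicClosure K)) := G.grp _
    exact map_zero (AddMonoidHom.mk' (V.map (BE.emb F K))
      (G.map_add (AlgebraicClosure F) (AlgebraicClosure K) (BE.emb F K)))
  refine h1.trans ?_
  rw [Finsupp.mapDomain.addMonoidHom_apply, Finsupp.mapDomain.addMonoidHom_apply,
    Finsupp.mapDomain_single, Finsupp.mapDomain_single, e1, e2]
  rfl

theorem bc_yk (a : V.pt F) (b : ℕ → V.pt F) (n : ℕ) :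
    BE.bc K (yk G hV F a b n).1 = (yk G hV K a b n).1 := by
  have h : ∀ z w : Dz V F, BE.bc K (z + w).1 = BE.bc K z.1 + BE.bc K w.1 := fun z w =>
    Finsupp.mapDomain_add
  have h' : ∀ (m : ℕ) (z : Dz V F), BE.bc K (m • z).1 = m • BE.bc K z.1 := fun m z =>
    (Finsupp.mapDomain.addMonoidHom (M := ℤ) (V.map (BE.emb F K))).map_nsmul m z.1
  induction n with
  | zero =>
    have e : ∀ (K : Type) [Field K] [Algebra F K], yk G hV K a b 0 = pz G hV K a := by
      intro K _ _
      unfold yk
      rw [Finset.sum_range_zero, add_zero]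
    rw [e, e, bc_pz]
  | succ n ih =>
    rw [yk_succ, yk_succ, h, h', ih, bc_pz]
    rfl

end loc

section nf

variable {F : Type} [Field F] [NumberField F] {V : Vr F} {G : Gr V} {Λ : Set ℕ}

theorem sumIm_of (hV : Fct V) {z : LHat (FA V)} (h : PtIm G Λ z) : SumIm G Λ z := by
  let _ : AddCommGroup (V.pt F) := G.grp F
  obtain ⟨x, hx⟩ := h
  let N : ℕ → ℕ+ := fun k => ⟨(k + 1).factorial, Nat.factorial_pos _⟩
  choose a ha using fun k => x.exists_rep (N k)
  have h1 : ∀ k, ∃ b, a (k + 1) = a k + (k + 1).factorial • b := by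
    intro k
    have hd : N k ∣ N (k + 1) := PNat.dvd_iff.2 (Nat.factorial_dvd_factorial (by omega))
    exact rep_sub (x.2 (N k) (N (k + 1)) hd _ (ha (k + 1))) (ha k)
  choose b hb using h1
  obtain ⟨Y, hY⟩ := exists_lhat (fun k => Gp.clsH V F (yk G hV F (a 0) b k))
    (fun k => Gp.clsH V F (pz G hV F (b k))) (fun k => by rw [yk_succ, map_add, map_nsmul])
  refine ⟨Y, fun m hm => ?_⟩
  obtain ⟨a', d, h2, h3, h4⟩ := hx m hm
  have hd : m ∣ N m := PNat.dvd_iff.2 (Nat.dvd_factorial m.pos (by omega))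
  obtain ⟨t, ht⟩ := rep_sub (x.2 m (N m) hd _ (ha m)) h2
  refine ⟨yk G hV F (a 0) b m, (fun v => yk G hV (FK F v) (a 0) b m,
    fun v => yk G hV (IK F v) (a 0) b m), d, ⟨fun v => (bc_yk G hV (a 0) b m).symm,
    fun v => (bc_yk G hV (a 0) b m).symm⟩, hY m m le_rfl, h3, fun v => ?_⟩
  let _ : AddCommGroup (V.pt (AlgebraicClosure (FK F v))) := G.grp _
  obtain ⟨α, hα, e⟩ := h4 v
  have e1 : G.sum _ (yk G hV (FK F v) (a 0) b m).1 = up (FK F v) (a m) :=
    sum_yk G hV (K := FK F v) a b hb m
  have e2 : upH G (FK F v) (a m) = upH G (FK F v) a' + (m : ℕ) • upH G (FK F v) t := by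
    rw [ht, map_add, map_nsmul]
  have e3 : upH G (FK F v) a' = G.sum _ (d.f v).cy + (m : ℕ) • α := e
  refine ⟨α + upH G (FK F v) t, fun σ => ?_, ?_⟩
  · have h5 : V.act σ (α + upH G (FK F v) t) = V.act σ α + V.act σ (upH G (FK F v) t) :=
      G.map_add _ _ (σ.restrictScalars F : AlgebraicClosure (FK F v) →ₐ[F]
        AlgebraicClosure (FK F v)) _ _
    have h6 : V.act σ (upH G (FK F v) t) = upH G (FK F v) t := rat_up hV t σ
    rw [h5, hα σ, h6]
  · have h7 : G.sum _ (yk G hV (FK F v) (a 0) b m).1 =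
        G.sum _ (d.f v).cy + (m : ℕ) • (α + upH G (FK F v) t) := by
      rw [e1, smul_add, ← add_assoc, ← e3, ← e2]
      rfl
    exact h7

/-- The statement for the points implies the statement for the cycles. -/
theorem imDeS_pt (hV : Fct V) (h2 : 2 ∉ Λ) (h : ∀ l ∈ Λ, l.Prime →
      ∀ v : HeightOneSpectrum (𝓞 F), DvS G (FK F v) (AlgebraicClosure (FK F v)) l)
    {z : LHat (FA V)} (hz : PtIm G Λ z) : ImDeS Λ z :=
  (imDeS_sum h2 h z).2 (sumIm_of hV hz)

end nf

end AV
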