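import Pool.Agent.Lib.MP_f80667_ag.Av.Main
import Pool.Agent.Lib.MP_f80667_ag.Cv.LocN

/-! The local theorem for products of Jacobians. -/

open ZC BE PE CV Polynomial IntermediateField IsDedekindDomain NumberField

namespace AV

/-- The local theorem for products of Jacobians. -/
theorem lj {l : ℕ} (hl : l.Prime) : Lj l :=
  lj_of hl (fun _ _ _ _ _ _ _ _ _ _ _ _ C => exPr C) fun _ _ _ _ _ _ _ _ _ _ _ _ _ _ _ hm h =>
    CV.loc (fun i => (hm i).some) hl h

end AV
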