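import Pool.Agent.Lib.MP_f80667_ag.Cv.Jc
import Pool.Agent.Lib.MP_f80667_ag.Pe.StE

/-!
The definitions of the statement on abelian varieties.

* `Fc V`: the maps of points are functorial, the reduction depends only on the valuation ring and the residue map, up to
  automorphisms.
* `Gr V`: a group law on the points of `V`; `G.add`, `G.mul m`, `G.o`, `G.sm`: the sum of two points, the multiple `m x`,
  the point `0`, the sum of a cycle.
* `DvS G K m`: the Albanese kernel (the classes of the cycles over `K` of degree `0` and sum `0`) is `m`-divisible.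
* `Tor G m N`: over algebraically closed fields the multiplication by `m` is surjective with `N` points in the kernel.
* `Rg C L`: the ring `L ⊗ A` of functions of the curve `C` without `∞`; the points of `C` over `L` are the homomorphisms
  `A → L` and `none = ∞`, `rdC`: their reductions.
* `JP C`: the product of the Jacobians of the curves `C i`: the points over `L` of the Jacobian of `C` are the ideal classes
  of `L ⊗ A` (`Cl C L`), the divisor classes of degree `0` of `C` over `L`; `Jmap`: extension of ideals, `cp x`: the class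
  of `[x] - [∞]`, `Jred w x y`: if over an extension `M` of `L` with a place `w'` over `w` the class `x` becomes
  `∑ e i cp (P i)`, then its reduction is `y = ∑ e i cp (Q i)`, `Q i` the reduction of `P i` at `w'`.
* `grP C`: the group law, `gn C`: the genus of a curve.
* `Mk k V₁ V₂`: morphisms over `k` of varieties over subfields `F₁`, `F₂` of `k`, `Mk.Hom`: homomorphisms.
* `Fac k C G m`: homomorphisms `q : JP C → V`, `s : V → JP C` over `k` with `q s = m`.
* `Dat O G N g`: `Fac k C G m` and `Tor G m N` for some `m` and curves `C i` over a subfield `k` of `M`, of genus at most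
  `g` and with good reduction over the valuation ring `O` of `M`.
* `Gda A G l`: `Dat O G N g` with `N` prime to `l` and `g < l`, `O` the valuation ring above `A` of an extension `M` of `K`
  of degree prime to `l`, and `l` not in the power `l - 1` of the maximal ideal of `O`; `Pga A G`: `Dat O G N g` for some
  finite extension.
* `AlbSA G c`: the sums of the family `c` are `0` at all places. `Smq G m K x y`: `x = y + m a`, `a` a point over `K`.
* `SumIm G Λ z`: the sums of `z` are, at `Λ`, those of the image of an element of the completion of `F^1(V)`.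
* `PtIm G Λ z`: the sums of `z` are, at `Λ`, the images of an element of the completion of the group of points `V(F)`.
-/

open TensorProduct ZC BE PE CV IsDedekindDomain NumberField

namespace AW

/-- The place `w'` is the composite of the place `w` and the automorphism `γ`. -/
def PlC {K M E Ω : Type} [Field K] [Field M] [Field E] [Field Ω] [Algebra K E] [Algebra M E]
    [Algebra K Ω] [Algebra M Ω] (γ : Ω ≃ₐ[K] Ω) (w : Place M E Ω) (w' : Place K E Ω) : Prop :=
  w'.V = w.V ∧ ∀ (a : E) (h : a ∈ w.V) (h' : a ∈ w'.V), w'.res ⟨a, h'⟩ = γ (w.res ⟨a, h⟩)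

section var

variable {F : Type} [Field F] (V : Vr F)

/-- The identity. -/
def Fid (L : Type) [Field L] [Algebra F L] : Prop := ∀ x : V.pt L, V.map (AlgHom.id F L) x = x

/-- Composites. -/
def Fcm (L M N : Type) [Field L] [Field M] [Field N] [Algebra F L] [Algebra F M] [Algebra F N] :
    Prop :=
  ∀ (σ : L →ₐ[F] M) (τ : M →ₐ[F] N) (x : V.pt L), V.map (τ.comp σ) x = V.map τ (V.map σ x)

/-- Automorphisms. -/
def Fgl (K M E Ω : Type) [Field K] [Field M] [Field E] [Field Ω] [Algebra K E] [Algebra M E]
    [Algebra K Ω] [Algebra M Ω] [Algebra F K] [Algebra F E] [Algebra F Ω]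
    [IsScalarTower F K Ω] : Prop :=
  ∀ (γ : Ω ≃ₐ[K] Ω) (w : Place M E Ω) (w' : Place K E Ω), PlC γ w w' →
    ∀ (x : V.pt E) (y : V.pt Ω), V.red w x y → V.red w' x (V.act γ y)

/-- The maps of points are functorial and the reduction is compatible with automorphisms. -/
structure Fc : Prop where
  id : ∀ (L : Type) [Field L] [Algebra F L], Fid V L
  comp : ∀ (L M N : Type) [Field L] [Field M] [Field N] [Algebra F L] [Algebra F M]
    [Algebra F N], Fcm V L M N
  gal : ∀ (K M E Ω : Type) [Field K] [Field M] [Field E] [Field Ω] [Algebra K E] [Algebra M E]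
    [Algebra K Ω] [Algebra M Ω] [Algebra F K] [Algebra F E] [Algebra F Ω]
    [IsScalarTower F K Ω], Fgl V K M E Ω

/-- A group law. -/
structure Gr where
  /-- the group structure -/
  grp : ∀ (L : Type) [Field L] [Algebra F L], AddCommGroup (V.pt L)
  map_add : ∀ (L M : Type) [Field L] [Field M] [Algebra F L] [Algebra F M] (σ : L →ₐ[F] M)
    (x y : V.pt L), V.map σ ((grp L).add x y) = (grp M).add (V.map σ x) (V.map σ y)

variable {V} (G : Gr V)

/-- The sum of two points. -/
def Gr.add (L : Type) [Field L] [Algebra F L] (x y : V.pt L) : V.pt L := (G.grp L).add x y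

/-- The point `0`. -/
def Gr.o (L : Type) [Field L] [Algebra F L] : V.pt L := (G.grp L).zero

/-- The multiple `m x`. -/
def Gr.mul (L : Type) [Field L] [Algebra F L] (m : ℕ) (x : V.pt L) : V.pt L := (G.grp L).nsmul m x

/-- The sum of a cycle. -/
noncomputable def Gr.sm (L : Type) [Field L] [Algebra F L] (z : V.pt L →₀ ℤ) : V.pt L :=
  @Finsupp.sum (V.pt L) ℤ (V.pt L) _ (G.grp L).toAddCommMonoid z fun x n => (G.grp L).zsmul n x

/-- The Albanese kernel over `K` is `m`-divisible. -/
def DvS (K : Type) [Field K] [Algebra F K] (m : ℕ) : Prop :=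
  ∀ z ∈ Dz V K, G.sm (AlgebraicClosure K) z = G.o (AlgebraicClosure K) →
    ∃ z' ∈ Dz V K, G.sm (AlgebraicClosure K) z' = G.o (AlgebraicClosure K) ∧
      z - m • z' ∈ V.ratEq K (AlgebraicClosure K)

/-- Over algebraically closed fields the multiplication by `m` is surjective and its kernel has `N` elements. -/
structure Tor (m N : ℕ) : Prop where
  ne : N ≠ 0
  div : ∀ (Ω : Type) [Field Ω] [Algebra F Ω] [IsAlgClosed Ω] (x : V.pt Ω), ∃ y, G.mul Ω m y = x
  tor : ∀ (Ω : Type) [Field Ω] [Algebra F Ω] [IsAlgClosed Ω],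
    Nat.card {x : V.pt Ω // G.mul Ω m x = G.o Ω} = N

end var

section crv

variable {F : Type} [Field F] (C : Crv F)

/-- The ring of functions over `L`. -/
def Rg (L : Type) [Field L] [Algebra F L] : Type := L ⊗[F] C.A

noncomputable instance Rg.cr (L : Type) [Field L] [Algebra F L] : CommRing (Rg C L) :=
  Algebra.TensorProduct.instCommRing

instance Rg.ded (L : Type) [Field L] [Algebra F L] : IsDedekindDomain (Rg C L) := C.dedO L

/-- The group of the ideal classes. -/
abbrev Cl (L : Type) [Field L] [Algebra F L] : Type := Additive (ClassGroup (Rg C L))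

variable {L M : Type} [Field L] [Field M] [Algebra F L] [Algebra F M]

/-- The base change of functions. -/
noncomputable def Rg.map (σ : L →ₐ[F] M) : Rg C L →+* Rg C M :=
  (Algebra.TensorProduct.map σ (AlgHom.id F C.A)).toRingHom

/-- The extension of ideal classes. -/
noncomputable def Jmap (σ : L →ₐ[F] M) (x : Cl C L) : Cl C M := clX (Rg.map C σ) x

variable {C}

/-- The value of the functions at a point. -/
noncomputable def Rg.ev (φ : C.A →ₐ[F] L) : Rg C L →+* L :=
  (Algebra.TensorProduct.lift (AlgHom.id L L) φ fun _ _ => Commute.all _ _).toRingHom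

/-- The class of the divisor `[x] - [∞]`. -/
noncomputable def cp (x : Option (C.A →ₐ[F] L)) : Cl C L :=
  match x with
  | none => 0
  | some φ => cls (RingHom.ker (Rg.ev φ))

variable {K Ω : Type} [Field K] [Field Ω] [Algebra K L] [Algebra K Ω] [Algebra F Ω]

/-- The reduction of points of the curve. -/
def rdC (w : Place K L Ω) (x : Option (C.A →ₐ[F] L)) (y : Option (C.A →ₐ[F] Ω)) : Prop :=
  (x = none ∧ y = none) ∨ (∃ φ, x = some φ ∧ (∃ a, φ a ∉ w.V) ∧ y = none) ∨
    (∃ φ ψ, x = some φ ∧ y = some ψ ∧ ∀ a, ∃ h : φ a ∈ w.V, ψ a = w.res ⟨φ a, h⟩)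

variable [Algebra K M] [Algebra L M]

/-- The classes `x` and `y` are the sums of points `P i` and of their reductions `Q i`, the place `w'` is above `w`. -/
def Jrd (w : Place K L Ω) (x : Cl C L) (y : Cl C Ω) [IsScalarTower F L M]
    (w' : Place K M Ω) : Prop :=
  Pov w w' ∧ ∃ (n : ℕ) (e : Fin n → ℤ) (P : Fin n → Option (C.A →ₐ[F] M))
    (Q : Fin n → Option (C.A →ₐ[F] Ω)), (∀ i, rdC w' (P i) (Q i)) ∧
      Jmap C (IsScalarTower.toAlgHom F L M) x = ∑ i, e i • cp (P i) ∧ y = ∑ i, e i • cp (Q i)

/-- The reduction of classes. -/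
def Jred (w : Place K L Ω) (x : Cl C L) (y : Cl C Ω) : Prop :=
  ∃ (M : Type) (_ : Field M) (_ : Algebra L M) (_ : Algebra K M) (_ : Algebra F M)
    (_ : IsScalarTower K L M) (_ : IsScalarTower F L M) (w' : Place K M Ω), Jrd w x y w'

end crv

section jac

variable {F : Type} [Field F]

/-- The genus. -/
noncomputable def gn (C : Crv F) : ℕ := {n : ℕ | ¬ ∃ x, C.G.d x = n}.ncard

variable {ι : Type} (C : ι → Crv F)

/-- **The product of the Jacobians** of pointed curves. -/
noncomputable def JP : Vr F where
  pt L _ _ := ∀ i, Cl (C i) L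
  map σ x i := Jmap (C i) σ (x i)
  red w x y := ∀ i, Jred w (x i) (y i)

/-- The group structure. -/
@[instance_reducible]
noncomputable def grV (L : Type) [Field L] [Algebra F L] : AddCommGroup ((JP C).pt L) :=
  (Pi.addCommGroup : AddCommGroup (∀ i, Cl (C i) L))

theorem grV_add {L M : Type} [Field L] [Field M] [Algebra F L] [Algebra F M] (σ : L →ₐ[F] M)
    (x y : (JP C).pt L) :
    (JP C).map σ ((grV C L).add x y) = (grV C M).add ((JP C).map σ x) ((JP C).map σ y) :=
  funext fun i => (clX (Rg.map (C i) σ)).map_add' (x i : Cl (C i) L) (y i : Cl (C i) L)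

/-- The group law of the product of the Jacobians. -/
noncomputable def grP : Gr (JP C) where
  grp L _ _ := grV C L
  map_add := fun L M _ _ _ _ σ x y => grV_add C σ x y

end jac

section mor

/-- A morphism over `k` of varieties over subfields of `k`. -/
structure Mk (k : Type) [Field k] {F₁ F₂ : Type} [Field F₁] [Field F₂] [Algebra F₁ k]
    [Algebra F₂ k] (V₁ : Vr F₁) (V₂ : Vr F₂) where
  /-- the map of points -/
  f : ∀ (L : Type) [Field L] [Algebra k L] [Algebra F₁ L] [Algebra F₂ L] [IsScalarTower F₁ k L]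
    [IsScalarTower F₂ k L], V₁.pt L → V₂.pt L
  nat : ∀ (L M : Type) [Field L] [Algebra k L] [Algebra F₁ L] [Algebra F₂ L]
    [IsScalarTower F₁ k L] [IsScalarTower F₂ k L] [Field M] [Algebra k M] [Algebra F₁ M]
    [Algebra F₂ M] [IsScalarTower F₁ k M] [IsScalarTower F₂ k M] (σ : L →ₐ[k] M) (x : V₁.pt L),
    V₂.map (σ.restrictScalars F₂) (f L x) = f M (V₁.map (σ.restrictScalars F₁) x)
  red : ∀ (K L Ω : Type) [Field K] [Algebra k K] [Field L] [Algebra K L] [Algebra k L]
    [IsScalarTower k K L] [Algebra F₁ L] [Algebra F₂ L] [IsScalarTower F₁ k L]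
    [IsScalarTower F₂ k L] [Field Ω] [Algebra K Ω] [Algebra k Ω] [IsScalarTower k K Ω]
    [Algebra F₁ Ω] [Algebra F₂ Ω] [IsScalarTower F₁ k Ω] [IsScalarTower F₂ k Ω]
    (w : Place K L Ω) (x : V₁.pt L) (y : V₁.pt Ω), V₁.red w x y → V₂.red w (f L x) (f Ω y)

/-- The morphism is a homomorphism. -/
def Mk.Hom {k : Type} [Field k] {F₁ F₂ : Type} [Field F₁] [Field F₂] [Algebra F₁ k]
    [Algebra F₂ k] {V₁ : Vr F₁} {V₂ : Vr F₂} (φ : Mk k V₁ V₂) (G₁ : Gr V₁) (G₂ : Gr V₂) : Prop :=
  ∀ (L : Type) [Field L] [Algebra k L] [Algebra F₁ L] [Algebra F₂ L] [IsScalarTower F₁ k L]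
    [IsScalarTower F₂ k L] (x y : V₁.pt L),
    φ.f L (G₁.add L x y) = G₂.add L (φ.f L x) (φ.f L y)

variable {F : Type} [Field F]

/-- Over `k` the variety `V` is up to multiplication by `m` a factor of the product of the Jacobians. -/
structure Fac (k : Type) [Field k] [Algebra F k] {ι : Type} (C : ι → Crv k) {V : Vr F}
    (G : Gr V) (m : ℕ) where
  /-- the homomorphism from the product of the Jacobians -/
  q : Mk k (JP C) V
  /-- the homomorphism to the product of the Jacobians -/
  s : Mk k V (JP C)
  hq : q.Hom (grP C) G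
  hs : s.Hom G (grP C)
  qs : ∀ (L : Type) [Field L] [Algebra k L] [Algebra F L] [IsScalarTower F k L] (x : V.pt L),
    q.f L (s.f L x) = G.mul L m x

variable {V : Vr F} {M : Type} [Field M] [Algebra F M]

/-- Curves over `k` of genus at most `g` with good reduction over `O`, and `N`. -/
def Dak (k : Type) [Field k] [Algebra F k] [Algebra k M] (O : ValuationSubring M) (G : Gr V)
    (N g : ℕ) : Prop :=
  ∃ (n : ℕ) (C : Fin n → Crv k) (m : ℕ),
    (∀ i, Nonempty (Mod (C i) O M) ∧ gn (C i) ≤ g) ∧ Nonempty (Fac k C G m) ∧ Tor G m N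

/-- Curves over a subfield of `M`. -/
def Dat (O : ValuationSubring M) (G : Gr V) (N g : ℕ) : Prop :=
  ∃ k : IntermediateField F M, Dak k O G N g

variable {K : Type} [Field K] [Algebra F K]

/-- `Dat` with `N` prime to `l`, `g < l`, `M` of degree prime to `l` over `K`, `O` the valuation ring above `A`. -/
def GdM (M : Type) [Field M] [Algebra F M] [Algebra K M] (A : ValuationSubring K) (G : Gr V)
    (l : ℕ) : Prop :=
  FiniteDimensional K M ∧ (Module.finrank K M).Coprime l ∧ ∃ (O : ValuationSubring M) (N g : ℕ),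
    O.comap (algebraMap K M) = A ∧ (l : O) ∉ IsLocalRing.maximalIdeal O ^ (l - 1) ∧
    Dat O G N g ∧ l.Coprime N ∧ g < l

/-- The conditions at the prime number `l`. -/
def Gda (A : ValuationSubring K) (G : Gr V) (l : ℕ) : Prop :=
  ∃ M : IntermediateField K (AlgebraicClosure K), GdM M A G l

/-- `Dat` over the finite extension `M` of `K`. -/
def PgM (M : Type) [Field M] [Algebra F M] [Algebra K M] (A : ValuationSubring K) (G : Gr V) :
    Prop :=
  FiniteDimensional K M ∧ ∃ (O : ValuationSubring M) (N g : ℕ),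
    O.comap (algebraMap K M) = A ∧ Dat O G N g

/-- Potentially a factor of a product of Jacobians of curves with good reduction. -/
def Pga (A : ValuationSubring K) (G : Gr V) : Prop :=
  ∃ M : IntermediateField K (AlgebraicClosure K), PgM M A G

/-- `x = y + m a`, `a` a point over `K`. -/
def Smq (G : Gr V) (m : ℕ) (K : Type) [Field K] [Algebra F K]
    (x y : V.pt (AlgebraicClosure K)) : Prop :=
  ∃ a : V.pt (AlgebraicClosure K), V.Rat K a ∧ x = G.add _ y (G.mul _ m a)

end mor

section nf

/-- The ring of integers of the completion `F_v`. -/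
noncomputable def Iv {F : Type} [Field F] [NumberField F] (v : HeightOneSpectrum (𝓞 F)) :
    ValuationSubring (FK F v) :=
  v.adicCompletionIntegers F

variable {F : Type} [Field F] [NumberField F] {V : Vr F} (G : Gr V)

/-- The sums are `0` at all places. -/
def AlbSA (c : Fam V) : Prop :=
  (∀ v, G.sm _ (c.f v).cy = G.o _) ∧ ∀ v, G.sm _ (c.i v).cy = G.o _

/-- The sums of `z` are, at `Λ`, those of the image of an element of the completion of `F^1(V)`. -/
def SumIm (Λ : Set ℕ) (z : LHat (FA V)) : Prop :=
  ∃ x : LHat (Gp V F), ∀ m : ℕ+, Sf Λ m → ∃ (c : Zc V F) (c' d : Fam V), IsBcF c c' ∧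
    x.Rep m c.cl ∧ z.Rep m d.cl ∧ ∀ v : HeightOneSpectrum (𝓞 F),
      Smq G m (FK F v) (G.sm _ (c'.f v).cy) (G.sm _ (d.f v).cy)

/-- The sums of `z` are, at `Λ`, the images of an element of the completion of `V(F)`. -/
def PtIm (Λ : Set ℕ) (z : LHat (FA V)) : Prop :=
  ∃ a : ℕ+ → V.pt F, (∀ m m' : ℕ+, m ∣ m' → ∃ b, a m' = G.add F (a m) (G.mul F m b)) ∧
    ∀ m : ℕ+, Sf Λ m → ∃ d : Fam V, z.Rep m d.cl ∧ ∀ v : HeightOneSpectrum (𝓞 F),
      Smq G m (FK F v) (V.map (Algebra.ofId F _) (a m)) (G.sm _ (d.f v).cy)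

end nf

end AW
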