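import Pool.Agent.Lib.MP_f80667_ag.Av.St
import Pool.Agent.Lib.MP_f80667_ag.Av.Main
import Pool.Agent.Lib.MP_f80667_ag.Cv.Gr

/-! The definitions of the statement and those of the proof. -/

open TensorProduct ZC BE PE CV IsDedekindDomain NumberField

namespace AW

section var

variable {F : Type} [Field F] {V : Vr F}

theorem Fc.fct (h : Fc V) : Fct V where
  id L _ _ x := h.id L x
  comp L M N _ _ _ _ _ _ σ τ x := h.comp L M N σ τ x
  gal K Ω _ _ _ _ _ _ M E _ _ _ _ _ γ w x y hr :=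
    h.gal K M E Ω γ w (temb γ w) ⟨rfl, fun _ _ _ => rfl⟩ x y hr

/-- The group law. -/
def Gr.old (G : Gr V) : AV.Gr V where
  grp := G.grp
  map_add := G.map_add

variable {G : Gr V}

theorem sm_eq (L : Type) [Field L] [Algebra F L] (z : V.pt L →₀ ℤ) :
    G.sm L z = G.old.sum L z := rfl

theorem dvS_iff {K : Type} [Field K] [Algebra F K] {m : ℕ} :
    DvS G K m ↔ AV.DvS G.old K (AlgebraicClosure K) m := Iff.rfl

theorem Tor.old {m N : ℕ} (h : Tor G m N) : AV.Tor G.old m N where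
  ne := h.ne
  div Ω _ _ _ x := h.div Ω x
  tor Ω _ _ _ := h.tor Ω

end var

section crv

variable {F : Type} [Field F] {ι : Type} (C : ι → Crv F)

theorem jp_eq : JP C = AV.JJ C := rfl

theorem grP_old : (grP C).old = AV.grP C := rfl

theorem gn_eq (C : Crv F) : gn C = C.gen := rfl

/-- The reduction of points of a curve and automorphisms. -/
theorem rdC_gal {C : Crv F} {K M E Ω : Type} [Field K] [Field M] [Field E] [Field Ω]
    [Algebra K E] [Algebra M E] [Algebra K Ω] [Algebra M Ω] [Algebra F K] [Algebra F E]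
    [Algebra F Ω] [IsScalarTower F K Ω] {γ : Ω ≃ₐ[K] Ω} {w : Place M E Ω} {w' : Place K E Ω}
    (h : PlC γ w w') {x : C.V.pt E} {y : C.V.pt Ω} (hr : C.V.red w x y) :
    C.V.red w' x (C.V.act γ y) := by
  rcases hr with ⟨h1, h2⟩ | ⟨φ, h1, h2, h3⟩ | ⟨φ, ψ, h1, h2, h3⟩
  · exact Or.inl ⟨h1, by rw [h2]; rfl⟩
  · refine Or.inr (Or.inl ⟨φ, h1, ?_, by rw [h3]; rfl⟩)
    rw [h.1]
    exact h2
  · refine Or.inr (Or.inr ⟨φ, (γ.restrictScalars F : Ω →ₐ[F] Ω).comp ψ, h1, by rw [h2]; rfl,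
      fun a => ?_⟩)
    obtain ⟨h4, h5⟩ := h3 a
    have h6 : φ a ∈ w'.V := by rw [h.1]; exact h4
    refine ⟨h6, ?_⟩
    change γ (ψ a) = w'.res _
    rw [h5, h.2 _ h4 h6]

/-- The product of the Jacobians is a functor. -/
theorem fc_jp : Fc (JP C) where
  id L _ _ := (Fct.pi (V := fun i => (C i).J) fun i => (C i).fctJ).id L
  comp L M N _ _ _ _ _ _ := (Fct.pi (V := fun i => (C i).J) fun i => (C i).fctJ).comp L M N
  gal K M E Ω _ _ _ _ _ _ _ _ _ _ _ _ := by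
    intro γ w w' hP x y h i
    obtain ⟨L', i1, i2, i3, i4, i5, i6, v, hw, n, e, P, Q, h1, h2, h3⟩ := h i
    let i7 : Algebra K L' := ((algebraMap E L').comp (algebraMap K E)).toAlgebra
    have i8 : IsScalarTower K E L' := IsScalarTower.of_algebraMap_eq fun _ => rfl
    have hm : ∀ a : K, algebraMap K L' a ∈ v.V := fun a =>
      (hw.1 (algebraMap K E a)).2 (by rw [← hP.1]; exact w'.mem a)
    let v' : Place K L' Ω :=
      { V := v.V
        ne_top := v.ne_top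
        mem := hm
        res := (γ : Ω →+* Ω).comp v.res
        res_k := fun a => by
          have h4 : algebraMap K E a ∈ w.V := by rw [← hP.1]; exact w'.mem a
          change γ (v.res ⟨algebraMap E L' (algebraMap K E a), hm a⟩) = _
          rw [hw.2 _ h4 (hm a), ← hP.2 _ h4 (w'.mem a), w'.res_k]
        res_zero := fun x hx => by
          change γ (v.res x) = 0
          rw [v.res_zero x hx, map_zero] }
    have hv : PlC γ v v' := ⟨rfl, fun _ _ _ => rfl⟩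
    refine ⟨L', i1, i2, i7, i4, i8, i6, v', ⟨fun a => ?_, fun a ha ha' => ?_⟩, n, e, P,
      fun j => (C i).V.act γ (Q j), fun j => rdC_gal hv (h1 j), h2, ?_⟩
    · rw [hP.1]
      exact hw.1 a
    · have h4 : a ∈ w.V := by rw [← hP.1]; exact ha
      change γ (v.res ⟨algebraMap E L' a, ha'⟩) = _
      rw [hP.2 a h4 ha, hw.2 a h4 ha']
    · have h5 : (y i : Cg (Ω ⊗[F] (C i).A)) = ∑ j, e j • cpt (C := C i) (Q j) := h3
      have h6 : clX (bA (C i) (γ.restrictScalars F : Ω →ₐ[F] Ω))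
          (∑ j, e j • cpt (C := C i) (Q j)) =
          ∑ j, e j • cpt (C := C i) ((C i).V.act γ (Q j)) := by
        rw [map_sum]
        refine Finset.sum_congr rfl fun j _ => ?_
        rw [map_zsmul]
        exact congrArg _ (cpt_map _ _)
      exact (congrArg (clX (bA (C i) (γ.restrictScalars F : Ω →ₐ[F] Ω))) h5).trans h6

end crv

section mor

/-- The morphism. -/
def Mk.old {k : Type} [Field k] {F₁ F₂ : Type} [Field F₁] [Field F₂] [Algebra F₁ k]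
    [Algebra F₂ k] {V₁ : Vr F₁} {V₂ : Vr F₂} (φ : Mk k V₁ V₂) : AV.Mk k V₁ V₂ where
  f := φ.f
  nat := φ.nat
  red := φ.red

/-- The morphism. -/
def Mk.new {k : Type} [Field k] {F₁ F₂ : Type} [Field F₁] [Field F₂] [Algebra F₁ k]
    [Algebra F₂ k] {V₁ : Vr F₁} {V₂ : Vr F₂} (φ : AV.Mk k V₁ V₂) : Mk k V₁ V₂ where
  f := φ.f
  nat := φ.nat
  red := φ.red

variable {F : Type} [Field F] {V : Vr F} {G : Gr V}

/-- The data. -/
noncomputable def Fac.old {k : Type} [Field k] [Algebra F k] {ι : Type} {C : ι → Crv k} {m : ℕ}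
    (f : Fac k C G m) : AV.Fac k C G.old m where
  q := f.q.old
  s := f.s.old
  hq := f.hq
  hs := f.hs
  qs := f.qs

/-- The data for the product of the Jacobians. -/
noncomputable def facP {ι : Type} (C : ι → Crv F) (f : AV.Fac F C (AV.grP C) 1) :
    Fac F C (grP C) 1 where
  q := Mk.new f.q
  s := Mk.new f.s
  hq := f.hq
  hs := f.hs
  qs := f.qs

variable {M : Type} [Field M] [Algebra F M]

theorem Gda.old {F₀ : Type} [Field F₀] [NumberField F₀] {v : HeightOneSpectrum (𝓞 F₀)}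
    [Algebra F (FK F₀ v)] {l : ℕ} (h : Gda (Iv v) G l) : AV.Gda G.old l (FK F₀ v) := by
  have hch : CharZero (FK F₀ v) :=
    charZero_of_injective_algebraMap (algebraMap F₀ (FK F₀ v)).injective
  obtain ⟨M, hM, hc, O, N, g, hO, hl, ⟨k, n, C, m, hC, ⟨f⟩, hT⟩, hN, hg⟩ := h
  obtain ⟨L₀, h₀⟩ := exists_ldI v
  obtain ⟨L, -, hL⟩ := L₀.exists_bsL M
  have h1 : CV.Iv v = Ok L₀ := SetLike.ext fun x => (h₀ x).symm
  obtain rfl := Gr_uniq L₀ M L hL O (Eq.trans hO h1)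
  exact ⟨M, L, k, inferInstance, inferInstance, inferInstance, inferInstance, n, C, m, N, hM, hc,
    fun i => (hC i).1, hl, ⟨f.old⟩, hT.old, hN, fun i => lt_of_le_of_lt (hC i).2 hg⟩

theorem Pga.old {F₀ : Type} [Field F₀] [NumberField F₀] {v : HeightOneSpectrum (𝓞 F₀)}
    [Algebra F (FK F₀ v)] (h : Pga (Iv v) G) : AV.Pga G.old (FK F₀ v) := by
  have hch : CharZero (FK F₀ v) :=
    charZero_of_injective_algebraMap (algebraMap F₀ (FK F₀ v)).injective
  obtain ⟨M, hM, O, N, g, hO, ⟨k, n, C, m, hC, ⟨f⟩, hT⟩⟩ := h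
  obtain ⟨L₀, h₀⟩ := exists_ldI v
  obtain ⟨L, -, hL⟩ := L₀.exists_bsL M
  have h1 : CV.Iv v = Ok L₀ := SetLike.ext fun x => (h₀ x).symm
  obtain rfl := Gr_uniq L₀ M L hL O (Eq.trans hO h1)
  exact ⟨M, L, k, inferInstance, inferInstance, inferInstance, inferInstance, n, C, m, N, hM,
    fun i => (hC i).1, ⟨f.old⟩, hT.old⟩

end mor

section nf

variable {F : Type} [Field F] [NumberField F] {V : Vr F} {G : Gr V} {Λ : Set ℕ}
  {z : LHat (FA V)}

theorem albSA_iff {c : Fam V} : AlbSA G c ↔ AV.AlbSA G.old c := Iff.rfl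

theorem sumIm_iff : SumIm G Λ z ↔ AV.SumIm G.old Λ z := Iff.rfl

/-- An element of the completion from representatives. -/
theorem exists_hat {A : Type} [AddCommGroup A] (a : ℕ+ → A)
    (h : ∀ m m' : ℕ+, m ∣ m' → ∃ b, a m' = a m + (m : ℕ) • b) :
    ∃ x : LHat A, ∀ m, x.Rep m (a m) :=
  ⟨⟨fun m => QuotientAddGroup.mk (a m), fun m m' hm c hc => by
    obtain ⟨u, hu⟩ := AV.mk_eq.1 hc
    obtain ⟨b, hb⟩ := h m m' hm
    obtain ⟨d, hd⟩ := hm
    refine AV.mk_eq.2 ⟨b + (d : ℕ) • u, ?_⟩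
    rw [hu, hb, hd, PNat.mul_coe, mul_smul, smul_add, add_assoc]⟩, fun m => rfl⟩

theorem PtIm.old (h : PtIm G Λ z) : AV.PtIm G.old Λ z := by
  let _ : AddCommGroup (V.pt F) := G.grp F
  obtain ⟨a, h1, h2⟩ := h
  obtain ⟨x, hx⟩ := exists_hat a h1
  refine ⟨x, fun m hm => ?_⟩
  obtain ⟨d, h3, h4⟩ := h2 m hm
  exact ⟨a m, d, hx m, h3, h4⟩

end nf

/-- The theorem. -/
theorem main_A (hJ : ∀ l : ℕ, l.Prime → AV.Lj l) {F : Type} [Field F] {V : Vr F} (hV : Fc V)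
    (G : Gr V) :
    (∀ (F₀ : Type) [Field F₀] [NumberField F₀] (v : HeightOneSpectrum (𝓞 F₀))
      [Algebra F (FK F₀ v)] (l : ℕ), l.Prime → Gda (Iv v) G l → DvS G (FK F₀ v) l) ∧
    ∀ [NumberField F],
      (∀ (n : ℕ) (C : Fin n → Crv F) (m N : ℕ), Nonempty (Fac F C G m) → Tor G m N →
        {v : HeightOneSpectrum (𝓞 F) | ¬ ∀ a : ℕ, a ≠ 0 → (∀ l : ℕ, l.Prime → l ∣ a →
          l.Coprime N ∧ ∀ i, gn (C i) < l) → DvS G (FK F v) a}.Finite ∧
        ∃ S : Set (HeightOneSpectrum (𝓞 F)), S.Finite ∧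
          {l : ℕ | l.Prime ∧ ¬ ((∀ v ∈ S, Pga (Iv v) G ∨ DvS G (FK F v) l) →
            ∀ v : HeightOneSpectrum (𝓞 F), DvS G (FK F v) l)}.Finite) ∧
      ∀ Λ : Set ℕ, (∀ l ∈ Λ, l.Prime ∧ l ≠ 2 ∧ ∀ v : HeightOneSpectrum (𝓞 F),
        DvS G (FK F v) l) →
        (∀ a : ℕ, a ≠ 0 → Sf Λ a → ∀ c : Fam V, AlbSA G c →
          ∃ c' : Fam V, AlbSA G c' ∧ c.cl = a • c'.cl) ∧
        ∀ z : LHat (FA V), (ImDeS Λ z ↔ SumIm G Λ z) ∧ (PtIm G Λ z → ImDeS Λ z) := by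
  have h := AV.main_A hJ hV.fct G.old
  refine ⟨fun F₀ _ _ v _ l hl hG => ?_, fun {_} => ⟨fun n C m N ⟨f⟩ hT => ?_, fun Λ hΛ => ?_⟩⟩
  · have hch : CharZero (FK F₀ v) :=
      charZero_of_injective_algebraMap (algebraMap F₀ (FK F₀ v)).injective
    exact h.1 (FK F₀ v) l hl hG.old
  · obtain ⟨h1, S, hS, h2⟩ := h.2.1 n C m N ⟨f.old⟩ hT.old
    refine ⟨h1, S, hS, h2.subset fun l hl => ⟨hl.1, fun h3 => hl.2 fun h4 => h3 fun v hv => ?_⟩⟩
    rcases h4 v hv with h5 | h5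
    · exact Or.inl h5.old
    · exact Or.inr h5
  · obtain ⟨h1, h2⟩ := h.2.2 Λ hΛ
    exact ⟨h1, fun z => ⟨(h2 z).1, fun h3 => (h2 z).2 h3.old⟩⟩

/-- The products of Jacobians. -/
theorem main_J {F : Type} [Field F] (n : ℕ) (C : Fin n → Crv F) :
    Fc (JP C) ∧ Nonempty (Fac F C (grP C) 1) ∧ Tor (grP C) 1 1 := by
  obtain ⟨h1, ⟨f⟩, h3⟩ := AV.main_J n C
  exact ⟨fc_jp C, ⟨facP C f⟩, h3.ne, h3.div, h3.tor⟩

end AW
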